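import Mathlib

/-!
Cauchy-Pompeiu formula for compactly supported Lipschitz functions on the plane.
-/

open MeasureTheory Filter Topology Metric Set
open scoped NNReal ENNReal

namespace Pool.Agent.Helper19.ZS

/-- The d-bar derivative, defined through the two line derivatives. -/
noncomputable def dbar (u : ℂ → ℂ) (w : ℂ) : ℂ :=
  (1 / 2) * (lineDeriv ℝ u w 1 + Complex.I * lineDeriv ℝ u w Complex.I)

theorem ae_lineDiff {f : ℂ → ℂ} {C : ℝ≥0} (hf : LipschitzWith C f) (v : ℂ) :
    ∀ᵐ w, LineDifferentiableAt ℝ f w v :=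
  hf.ae_differentiableAt.mono fun _ hx => hx.lineDifferentiableAt

theorem ibp_limit₁ {f g : ℂ → ℂ} {C : ℝ≥0}
    (hf : LipschitzWith C f) (hg : Integrable g) (v : ℂ) :
    Tendsto (fun (t : ℝ) ↦ ∫ x, (t⁻¹ • (f (x + t • v) - f x)) * g x) (𝓝[>] 0)
      (𝓝 (∫ x, lineDeriv ℝ f x v * g x)) := by
  apply tendsto_integral_filter_of_dominated_convergence (fun x ↦ (C * ‖v‖) * ‖g x‖)
  · filter_upwards with t
    apply AEStronglyMeasurable.mul ?_ hg.aestronglyMeasurable
    apply Continuous.aestronglyMeasurable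
    have := hf.continuous
    fun_prop
  · filter_upwards [self_mem_nhdsWithin] with t (ht : 0 < t)
    filter_upwards with x
    calc ‖t⁻¹ • (f (x + t • v) - f x) * g x‖
      _ = (t⁻¹ * ‖f (x + t • v) - f x‖) * ‖g x‖ := by
        rw [norm_mul, norm_smul, Real.norm_eq_abs, abs_of_pos (inv_pos.2 ht)]
      _ ≤ (t⁻¹ * (C * ‖(x + t • v) - x‖)) * ‖g x‖ := by
        gcongr; exact LipschitzWith.norm_sub_le hf (x + t • v) x
      _ = (C * ‖v‖) * ‖g x‖ := by
        rw [add_sub_cancel_left, norm_smul, Real.norm_eq_abs, abs_of_pos ht]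
        field_simp
  · exact hg.norm.const_mul _
  · filter_upwards [ae_lineDiff hf v] with x hx
    exact hx.hasLineDerivAt.tendsto_slope_zero_right.mul tendsto_const_nhds

theorem ibp_limit₂ {f g : ℂ → ℂ} {C : ℝ≥0}
    (hf : LipschitzWith C f) (h'f : HasCompactSupport f) (hg : Continuous g) (v : ℂ) :
    Tendsto (fun (t : ℝ) ↦ ∫ x, (t⁻¹ • (f (x + t • v) - f x)) * g x) (𝓝[>] 0)
      (𝓝 (∫ x, lineDeriv ℝ f x v * g x)) := by
  let K := cthickening (‖v‖) (tsupport f)
  have K_compact : IsCompact K := IsCompact.cthickening h'f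
  apply tendsto_integral_filter_of_dominated_convergence
      (K.indicator (fun x ↦ (C * ‖v‖) * ‖g x‖))
  · filter_upwards with t
    apply Continuous.aestronglyMeasurable
    have := hf.continuous
    fun_prop
  · filter_upwards [Ioc_mem_nhdsGT zero_lt_one] with t ht
    have t_pos : 0 < t := ht.1
    filter_upwards with x
    by_cases hx : x ∈ K
    · calc ‖t⁻¹ • (f (x + t • v) - f x) * g x‖
        _ = (t⁻¹ * ‖f (x + t • v) - f x‖) * ‖g x‖ := by
          rw [norm_mul, norm_smul, Real.norm_eq_abs, abs_of_pos (inv_pos.2 t_pos)]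
        _ ≤ (t⁻¹ * (C * ‖(x + t • v) - x‖)) * ‖g x‖ := by
          gcongr; exact LipschitzWith.norm_sub_le hf (x + t • v) x
        _ = (C * ‖v‖) * ‖g x‖ := by
          rw [add_sub_cancel_left, norm_smul, Real.norm_eq_abs, abs_of_pos t_pos]
          field_simp
        _ = K.indicator (fun x ↦ (C * ‖v‖) * ‖g x‖) x := by rw [indicator_of_mem hx]
    · have A : f x = 0 := by
        rw [← Function.notMem_support]
        contrapose hx
        exact self_subset_cthickening _ (subset_tsupport _ hx)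
      have B : f (x + t • v) = 0 := by
        rw [← Function.notMem_support]
        contrapose hx
        apply mem_cthickening_of_dist_le _ _ (‖v‖) (tsupport f) (subset_tsupport _ hx)
        simp only [dist_eq_norm, sub_add_cancel_left, norm_neg, norm_smul, Real.norm_eq_abs,
          abs_of_nonneg t_pos.le]
        exact mul_le_of_le_one_left (norm_nonneg v) ht.2
      simp only [B, A, _root_.sub_self, smul_zero, zero_mul, norm_zero]
      exact indicator_nonneg (fun y _hy ↦ by positivity) _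
  · rw [integrable_indicator_iff K_compact.measurableSet]
    exact ContinuousOn.integrableOn_compact K_compact (by fun_prop)
  · filter_upwards [ae_lineDiff hf v] with x hx
    exact hx.hasLineDerivAt.tendsto_slope_zero_right.mul tendsto_const_nhds

theorem ibp {f g : ℂ → ℂ} {C D : ℝ≥0}
    (hf : LipschitzWith C f) (hg : LipschitzWith D g) (h'g : HasCompactSupport g) (v : ℂ) :
    ∫ x, lineDeriv ℝ f x v * g x = ∫ x, lineDeriv ℝ g x (-v) * f x := by
  have A : Tendsto (fun (t : ℝ) ↦ ∫ x, (t⁻¹ • (f (x + t • v) - f x)) * g x) (𝓝[>] 0)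
              (𝓝 (∫ x, lineDeriv ℝ f x v * g x)) :=
    ibp_limit₁ hf (hg.continuous.integrable_of_hasCompactSupport h'g) v
  have B : Tendsto (fun (t : ℝ) ↦ ∫ x, (t⁻¹ • (g (x + t • (-v)) - g x)) * f x) (𝓝[>] 0)
              (𝓝 (∫ x, lineDeriv ℝ g x (-v) * f x)) :=
    ibp_limit₂ hg h'g hf.continuous (-v)
  suffices S1 : ∀ (t : ℝ), ∫ x, (t⁻¹ • (f (x + t • v) - f x)) * g x =
                            ∫ x, (t⁻¹ • (g (x + t • (-v)) - g x)) * f x by
    simp only [S1] at A; exact tendsto_nhds_unique A B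
  intro t
  suffices S2 : ∫ x, (f (x + t • v) - f x) * g x = ∫ x, (g (x + t • (-v)) - g x) * f x by
    simp only [smul_mul_assoc, integral_smul, S2]
  have S3 : ∫ x, f (x + t • v) * g x = ∫ x, f x * g (x + t • (-v)) := by
    rw [← integral_add_right_eq_self _ (t • (-v))]; simp
  have S4 : ∫ x, (g (x + t • (-v)) - g x) * f x = ∫ x, f x * g (x + t • (-v)) - f x * g x := by
    congr 1; ext x; ring
  rw [S4]
  simp_rw [_root_.sub_mul]
  rw [integral_sub, integral_sub, S3]
  · apply Continuous.integrable_of_hasCompactSupport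
    · exact hf.continuous.mul (hg.continuous.comp (continuous_add_const _))
    · exact (h'g.comp_homeomorph (Homeomorph.addRight (t • (-v)))).mul_left
  · exact (hf.continuous.mul hg.continuous).integrable_of_hasCompactSupport h'g.mul_left
  · apply Continuous.integrable_of_hasCompactSupport
    · exact (hf.continuous.comp (continuous_add_const _)).mul hg.continuous
    · exact h'g.mul_left
  · exact (hf.continuous.mul hg.continuous).integrable_of_hasCompactSupport h'g.mul_left

theorem norm_lineDeriv_le {f : ℂ → ℂ} {C : ℝ≥0} (hf : LipschitzWith C f) (w v : ℂ) :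
    ‖lineDeriv ℝ f w v‖ ≤ C * ‖v‖ :=
  norm_lineDeriv_le_of_lipschitz ℝ hf

theorem norm_dbar_le {f : ℂ → ℂ} {C : ℝ≥0} (hf : LipschitzWith C f) (w : ℂ) :
    ‖dbar f w‖ ≤ C := by
  have h1 := norm_lineDeriv_le hf w 1
  have h2 := norm_lineDeriv_le hf w Complex.I
  rw [dbar, norm_mul]
  have : ‖lineDeriv ℝ f w 1 + Complex.I * lineDeriv ℝ f w Complex.I‖ ≤ C + C := by
    refine (norm_add_le _ _).trans ?_
    rw [norm_mul, Complex.norm_I, one_mul]
    simp only [norm_one, mul_one, Complex.norm_I] at h1 h2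
    exact add_le_add h1 h2
  have h3 : ‖(1 / 2 : ℂ)‖ = 1 / 2 := by norm_num
  rw [h3]
  linarith

theorem measurable_dbar {f : ℂ → ℂ} (hf : Continuous f) : Measurable (dbar f) := by
  unfold dbar
  have h1 : Measurable (fun w => lineDeriv ℝ f w 1) := measurable_lineDeriv hf
  have h2 : Measurable (fun w => lineDeriv ℝ f w Complex.I) := measurable_lineDeriv hf
  fun_prop

/-- The regularised Cauchy kernel. -/
noncomputable def kern (ρ : ℝ) (ζ : ℂ) : ℂ := (starRingEnd ℂ ζ) / ((Complex.normSq ζ + ρ ^ 2 : ℝ) : ℂ)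

theorem kern_lip {ρ : ℝ} (hρ : 0 < ρ) (ζ η : ℂ) :
    ‖kern ρ ζ - kern ρ η‖ ≤ (ρ ^ 2)⁻¹ * ‖ζ - η‖ := by
  have hA : 0 < Complex.normSq ζ + ρ ^ 2 := add_pos_of_nonneg_of_pos (Complex.normSq_nonneg _) (by positivity)
  have hB : 0 < Complex.normSq η + ρ ^ 2 := add_pos_of_nonneg_of_pos (Complex.normSq_nonneg _) (by positivity)
  have hAc : ((Complex.normSq ζ + ρ ^ 2 : ℝ) : ℂ) ≠ 0 := by exact_mod_cast hA.ne'
  have hBc : ((Complex.normSq η + ρ ^ 2 : ℝ) : ℂ) ≠ 0 := by exact_mod_cast hB.ne'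
  have key : kern ρ ζ - kern ρ η =
      ((ρ ^ 2 : ℝ) * (starRingEnd ℂ (ζ - η)) - (starRingEnd ℂ ζ) * (starRingEnd ℂ η) * (ζ - η)) /
        (((Complex.normSq ζ + ρ ^ 2 : ℝ) : ℂ) * ((Complex.normSq η + ρ ^ 2 : ℝ) : ℂ)) := by
    unfold kern
    rw [div_sub_div _ _ hAc hBc]
    congr 1
    push_cast
    rw [← Complex.mul_conj, ← Complex.mul_conj, map_sub]
    ring
  rw [key, norm_div, norm_mul, Complex.norm_real, Complex.norm_real, Real.norm_of_nonneg hA.le,
    Real.norm_of_nonneg hB.le, div_le_iff₀ (mul_pos hA hB)]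
  have h1 : ‖((ρ ^ 2 : ℝ) : ℂ) * (starRingEnd ℂ (ζ - η)) -
      (starRingEnd ℂ ζ) * (starRingEnd ℂ η) * (ζ - η)‖ ≤ (ρ ^ 2 + ‖ζ‖ * ‖η‖) * ‖ζ - η‖ := by
    refine (norm_sub_le _ _).trans ?_
    rw [norm_mul, norm_mul, norm_mul, Complex.norm_real, RCLike.norm_conj, RCLike.norm_conj,
      RCLike.norm_conj, Real.norm_of_nonneg (by positivity : (0 : ℝ) ≤ ρ ^ 2)]
    linarith
  refine h1.trans ?_
  have h2 : ρ ^ 2 * (ρ ^ 2 + ‖ζ‖ * ‖η‖) ≤ (Complex.normSq ζ + ρ ^ 2) * (Complex.normSq η + ρ ^ 2) := by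
    rw [Complex.normSq_eq_norm_sq, Complex.normSq_eq_norm_sq]
    nlinarith [sq_nonneg (‖ζ‖ - ‖η‖), sq_nonneg ρ, norm_nonneg ζ, norm_nonneg η,
      mul_nonneg (sq_nonneg ρ) (sq_nonneg (‖ζ‖ - ‖η‖)),
      mul_nonneg (sq_nonneg ρ) (mul_nonneg (norm_nonneg ζ) (norm_nonneg η)),
      mul_nonneg (sq_nonneg ‖ζ‖) (sq_nonneg ‖η‖)]
  have h3 : (ρ ^ 2)⁻¹ * ‖ζ - η‖ * ((Complex.normSq ζ + ρ ^ 2) * (Complex.normSq η + ρ ^ 2)) =
      ((Complex.normSq ζ + ρ ^ 2) * (Complex.normSq η + ρ ^ 2)) / ρ ^ 2 * ‖ζ - η‖ := by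
    field_simp
  rw [h3]
  gcongr
  rw [le_div_iff₀ (by positivity)]
  linarith

theorem kern_norm_le {ρ : ℝ} (ζ : ℂ) : ‖kern ρ ζ‖ ≤ ‖ζ‖⁻¹ := by
  unfold kern
  rcases eq_or_ne ζ 0 with rfl | h
  · simp
  rw [norm_div, RCLike.norm_conj, Complex.norm_real,
    Real.norm_of_nonneg (add_nonneg (Complex.normSq_nonneg _) (sq_nonneg _))]
  have h0 : 0 < ‖ζ‖ := norm_pos_iff.2 h
  rw [Complex.normSq_eq_norm_sq, div_le_iff₀ (by positivity), inv_mul_eq_div, le_div_iff₀ h0]
  nlinarith [sq_nonneg ρ]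

theorem kern_tendsto (ζ : ℂ) : Tendsto (fun ρ : ℝ => kern ρ ζ) (𝓝[>] 0) (𝓝 ζ⁻¹) := by
  rcases eq_or_ne ζ 0 with rfl | h
  · simp [kern]
  have h0 : (Complex.normSq ζ : ℝ) ≠ 0 := by simpa using h
  have h1 : ζ⁻¹ = (starRingEnd ℂ ζ) / ((Complex.normSq ζ + (0:ℝ) ^ 2 : ℝ) : ℂ) := by
    rw [Complex.inv_def]
    simp [div_eq_mul_inv]
  rw [h1]
  unfold kern
  apply tendsto_nhdsWithin_of_tendsto_nhds
  refine Tendsto.div tendsto_const_nhds ?_ ?_
  · apply Complex.continuous_ofReal.continuousAt.tendsto.comp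
    apply Continuous.tendsto'
    · fun_prop
    · simp
  · simpa using h

theorem kern_hasLineDeriv {ρ : ℝ} (hρ : 0 < ρ) (z w v : ℂ) :
    HasLineDerivAt ℝ (fun w => kern ρ (z - w))
      ((-(starRingEnd ℂ v) * ((Complex.normSq (z - w) + ρ ^ 2 : ℝ) : ℂ) +
        (starRingEnd ℂ (z - w)) * ((2 * ((z - w).re * v.re + (z - w).im * v.im) : ℝ) : ℂ)) /
        ((Complex.normSq (z - w) + ρ ^ 2 : ℝ) : ℂ) ^ 2) w v := by
  have hA : 0 < Complex.normSq (z - w) + ρ ^ 2 :=
    add_pos_of_nonneg_of_pos (Complex.normSq_nonneg _) (by positivity)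
  have hAc : ((Complex.normSq (z - w) + ρ ^ 2 : ℝ) : ℂ) ≠ 0 := by exact_mod_cast hA.ne'
  unfold HasLineDerivAt kern
  have hN : HasDerivAt (fun t : ℝ => starRingEnd ℂ (z - (w + t • v))) (-(starRingEnd ℂ v)) 0 := by
    have h1 : HasDerivAt (fun t : ℝ => starRingEnd ℂ (z - w) - (t : ℂ) * starRingEnd ℂ v)
        (0 - 1 * starRingEnd ℂ v) 0 := by
      refine (hasDerivAt_const _ _).sub ?_
      exact (Complex.ofRealCLM.hasDerivAt (x := (0:ℝ))).mul_const _
    have h2 : (fun t : ℝ => starRingEnd ℂ (z - (w + t • v))) =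
        (fun t : ℝ => starRingEnd ℂ (z - w) - (t : ℂ) * starRingEnd ℂ v) := by
      ext t
      simp only [map_sub, map_add, Complex.real_smul, map_mul, Complex.conj_ofReal]
      ring
    rw [h2]
    simpa using h1
  have hD : HasDerivAt (fun t : ℝ => ((Complex.normSq (z - (w + t • v)) + ρ ^ 2 : ℝ) : ℂ))
      ((-(2 * ((z - w).re * v.re + (z - w).im * v.im)) : ℝ) : ℂ) 0 := by
    apply HasDerivAt.ofReal_comp
    have h2 : (fun t : ℝ => Complex.normSq (z - (w + t • v)) + ρ ^ 2) =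
        (fun t : ℝ => ((z - w).re - t * v.re) ^ 2 + ((z - w).im - t * v.im) ^ 2 + ρ ^ 2) := by
      ext t
      rw [Complex.normSq_apply]
      simp only [Complex.sub_re, Complex.add_re, Complex.real_smul, Complex.mul_re,
        Complex.ofReal_re, Complex.ofReal_im, Complex.sub_im, Complex.add_im, Complex.mul_im]
      ring
    rw [h2]
    have h3 : HasDerivAt (fun t : ℝ => (z - w).re - t * v.re) (-(v.re)) 0 := by
      have := ((hasDerivAt_id (0:ℝ)).mul_const v.re).const_sub (z - w).re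
      simpa using this
    have h4 : HasDerivAt (fun t : ℝ => (z - w).im - t * v.im) (-(v.im)) 0 := by
      have := ((hasDerivAt_id (0:ℝ)).mul_const v.im).const_sub (z - w).im
      simpa using this
    have h5 := ((h3.pow 2).add (h4.pow 2)).add_const (ρ ^ 2)
    refine h5.congr_deriv ?_
    norm_num
    ring
  have h := hN.div hD (by simpa using hAc)
  refine h.congr_deriv ?_
  simp only [zero_smul, add_zero]
  push_cast
  congr 1
  ring

theorem dbar_kern {ρ : ℝ} (hρ : 0 < ρ) (z w : ℂ) :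
    dbar (fun w => kern ρ (z - w)) w = -((ρ ^ 2 / (Complex.normSq (z - w) + ρ ^ 2) ^ 2 : ℝ) : ℂ) := by
  have hA : 0 < Complex.normSq (z - w) + ρ ^ 2 :=
    add_pos_of_nonneg_of_pos (Complex.normSq_nonneg _) (by positivity)
  have hAc : ((Complex.normSq (z - w) + ρ ^ 2 : ℝ) : ℂ) ≠ 0 := by exact_mod_cast hA.ne'
  unfold dbar
  rw [(kern_hasLineDeriv hρ z w 1).lineDeriv, (kern_hasLineDeriv hρ z w Complex.I).lineDeriv]
  push_cast at hAc ⊢
  simp only [map_one, Complex.conj_I, Complex.one_re, Complex.one_im, Complex.I_re, Complex.I_im]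
  generalize hζ : z - w = ζ at *
  have e : (Complex.normSq ζ : ℂ) = starRingEnd ℂ ζ * ((ζ.re : ℂ) + (ζ.im : ℂ) * Complex.I) := by
    rw [Complex.re_add_im, mul_comm, Complex.mul_conj]
  field_simp
  rw [e]
  push_cast
  ring_nf
  linear_combination (starRingEnd ℂ ζ * ζ.im * Complex.I + starRingEnd ℂ ζ * ζ.re + (ρ : ℂ) ^ 2) *
    Complex.I_sq

/-- The normalising constant (equal to pi, but we do not need its value). -/
noncomputable def kappa : ℝ := ∫ ζ : ℂ, ((1 + ‖ζ‖ ^ 2) ^ 2)⁻¹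

theorem integrable_phi : Integrable (fun ζ : ℂ => ((1 + ‖ζ‖ ^ 2) ^ 2)⁻¹) := by
  have h := integrable_rpow_neg_one_add_norm_sq (E := ℂ) (μ := volume) (r := 4) (by simp; norm_num)
  refine h.congr (Eventually.of_forall fun ζ => ?_)
  simp only
  rw [show (-(4:ℝ) / 2) = -(2:ℕ) by norm_num, Real.rpow_neg (by positivity), Real.rpow_natCast]

theorem kappa_pos : 0 < kappa := by
  unfold kappa
  rw [integral_pos_iff_support_of_nonneg (fun ζ => by positivity) integrable_phi]
  have : Function.support (fun ζ : ℂ => ((1 + ‖ζ‖ ^ 2) ^ 2)⁻¹) = univ := by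
    ext ζ
    simp only [Function.mem_support, mem_univ, iff_true]
    positivity
  rw [this]
  simp

theorem approx_id {u : ℂ → ℂ} {M : ℝ} (hu : Continuous u) (hM : ∀ w, ‖u w‖ ≤ M) (z : ℂ) :
    Tendsto (fun ρ : ℝ => ∫ w, u w * ((ρ ^ 2 / (Complex.normSq (z - w) + ρ ^ 2) ^ 2 : ℝ) : ℂ))
      (𝓝[>] 0) (𝓝 (kappa * u z)) := by
  have h1 : ∀ ρ : ℝ, 0 < ρ →
      ∫ w, u w * ((ρ ^ 2 / (Complex.normSq (z - w) + ρ ^ 2) ^ 2 : ℝ) : ℂ) =
        ∫ ζ : ℂ, u (z - ρ • ζ) * ((((1 + ‖ζ‖ ^ 2) ^ 2)⁻¹ : ℝ) : ℂ) := by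
    intro ρ hρ
    have e1 := Measure.integral_comp_smul (μ := (volume : Measure ℂ))
      (fun y : ℂ => u (z - y) * ((((1 + ‖y‖ ^ 2 / ρ ^ 2) ^ 2)⁻¹ : ℝ) : ℂ)) ρ
    have e2 : ∀ ζ : ℂ, (fun y : ℂ => u (z - y) * ((((1 + ‖y‖ ^ 2 / ρ ^ 2) ^ 2)⁻¹ : ℝ) : ℂ)) (ρ • ζ) =
        u (z - ρ • ζ) * ((((1 + ‖ζ‖ ^ 2) ^ 2)⁻¹ : ℝ) : ℂ) := by
      intro ζ
      simp only
      congr 2
      rw [norm_smul, Real.norm_of_nonneg hρ.le, mul_pow]
      congr 3
      field_simp
    simp_rw [e2] at e1
    rw [e1]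
    have e3 := integral_sub_left_eq_self
      (fun y : ℂ => u (z - y) * ((((1 + ‖y‖ ^ 2 / ρ ^ 2) ^ 2)⁻¹ : ℝ) : ℂ)) volume z
    rw [← e3, Complex.finrank_real_complex, ← integral_smul]
    congr 1
    ext w
    simp only [sub_sub_cancel]
    rw [Complex.real_smul, Complex.normSq_eq_norm_sq]
    have h5 : ρ ^ 2 / (‖z - w‖ ^ 2 + ρ ^ 2) ^ 2 = |(ρ ^ 2)⁻¹| * ((1 + ‖z - w‖ ^ 2 / ρ ^ 2) ^ 2)⁻¹ := by
      rw [abs_of_pos (by positivity)]
      field_simp
      ring
    rw [h5]
    push_cast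
    ring
  have h2 : Tendsto (fun ρ : ℝ => ∫ ζ : ℂ, u (z - ρ • ζ) * ((((1 + ‖ζ‖ ^ 2) ^ 2)⁻¹ : ℝ) : ℂ))
      (𝓝[>] 0) (𝓝 (∫ ζ : ℂ, u z * ((((1 + ‖ζ‖ ^ 2) ^ 2)⁻¹ : ℝ) : ℂ))) := by
    apply tendsto_integral_filter_of_dominated_convergence (fun ζ => M * ((1 + ‖ζ‖ ^ 2) ^ 2)⁻¹)
    · filter_upwards with ρ
      apply Continuous.aestronglyMeasurable
      have : Continuous fun ζ : ℂ => ((1 + ‖ζ‖ ^ 2) ^ 2)⁻¹ := by
        apply Continuous.inv₀ (by fun_prop)
        intro ζ; positivity
      fun_prop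
    · filter_upwards with ρ
      filter_upwards with ζ
      rw [norm_mul, Complex.norm_real, Real.norm_of_nonneg (by positivity)]
      gcongr
      exact hM _
    · exact integrable_phi.const_mul M
    · filter_upwards with ζ
      apply Tendsto.mul_const
      apply tendsto_nhdsWithin_of_tendsto_nhds
      refine Continuous.tendsto' (by fun_prop) _ _ ?_
      simp
  have h3 : (∫ ζ : ℂ, u z * ((((1 + ‖ζ‖ ^ 2) ^ 2)⁻¹ : ℝ) : ℂ)) = kappa * u z := by
    rw [integral_const_mul, integral_complex_ofReal, mul_comm]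
    rfl
  rw [h3] at h2
  refine h2.congr' ?_
  filter_upwards [self_mem_nhdsWithin] with ρ hρ
  exact (h1 ρ hρ).symm

theorem locInt_kernel (z : ℂ) : LocallyIntegrable (fun w : ℂ => (z - w)⁻¹) := by
  have h : LocallyIntegrable (fun w : ℂ => w⁻¹) := by
    refine locallyIntegrable_of_norm_le_rpow (C := 1) (α := 1) (by simp) (by simp) ?_
      (measurable_id.inv).aestronglyMeasurable
    filter_upwards with x
    rw [norm_inv, one_mul, Real.rpow_neg_one]
  rw [locallyIntegrable_iff] at h ⊢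
  intro K hK
  have h2 : IsCompact ((fun w => z - w) ⁻¹' K) := by
    have : ((fun w => z - w) ⁻¹' K) = (fun w => z - w) '' K := by
      ext w
      simp only [mem_preimage, mem_image]
      constructor
      · intro hw; exact ⟨z - w, hw, by ring⟩
      · rintro ⟨y, hy, rfl⟩; simpa using hy
    rw [this]
    exact hK.image (by fun_prop)
  have h3 := h _ h2
  have hmp : MeasurePreserving (fun w : ℂ => z - w) volume volume :=
    Measure.measurePreserving_sub_left volume z
  have hemb : MeasurableEmbedding (fun w : ℂ => z - w) := (MeasurableEquiv.subLeft z).measurableEmbedding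
  have h4 := (hmp.integrableOn_comp_preimage hemb (f := fun w : ℂ => w⁻¹)
    (s := ((fun w => z - w) ⁻¹' K))).2 h3
  have h5 : (fun w => z - w) ⁻¹' ((fun w => z - w) ⁻¹' K) = K := by
    ext w; simp
  rw [h5] at h4
  exact h4

/-- Cauchy-Pompeiu for compactly supported Lipschitz functions. -/
theorem cauchy_pompeiu {u : ℂ → ℂ} {C : ℝ≥0} (hu : LipschitzWith C u) (hcu : HasCompactSupport u)
    (z : ℂ) : ∫ w, dbar u w * (z - w)⁻¹ = kappa * u z := by
  -- support of the line derivatives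
  have hsupp : ∀ v : ℂ, ∀ w, w ∉ tsupport u → lineDeriv ℝ u w v = 0 := by
    intro v w hw
    have h0 : u =ᶠ[𝓝 w] 0 := notMem_tsupport_iff_eventuallyEq.1 hw
    have := h0.lineDeriv_eq (𝕜 := ℝ) (v := v)
    rw [this]
    simp [lineDeriv]
  have hdb : ∀ w, w ∉ tsupport u → dbar u w = 0 := by
    intro w hw
    unfold dbar
    rw [hsupp 1 w hw, hsupp Complex.I w hw]; simp
  obtain ⟨M, hM⟩ : ∃ M, ∀ w, ‖u w‖ ≤ M := hcu.exists_bound_of_continuous hu.continuous
  have hA : Tendsto (fun ρ : ℝ => ∫ w, dbar u w * kern ρ (z - w)) (𝓝[>] 0)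
      (𝓝 (∫ w, dbar u w * (z - w)⁻¹)) := by
    apply tendsto_integral_filter_of_dominated_convergence
      (fun w => (tsupport u).indicator (fun w => C * ‖(z - w)⁻¹‖) w)
    · filter_upwards [self_mem_nhdsWithin] with ρ (hρ : 0 < ρ)
      apply AEStronglyMeasurable.mul (measurable_dbar hu.continuous).aestronglyMeasurable
      apply Continuous.aestronglyMeasurable
      have : LipschitzWith ((ρ ^ 2)⁻¹).toNNReal (kern ρ) := by
        apply LipschitzWith.of_dist_le_mul
        intro a b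
        rw [dist_eq_norm, dist_eq_norm, Real.coe_toNNReal _ (by positivity)]
        exact kern_lip hρ a b
      exact this.continuous.comp (by fun_prop)
    · filter_upwards with ρ
      filter_upwards with w
      by_cases hw : w ∈ tsupport u
      · rw [indicator_of_mem hw, norm_mul, norm_inv]
        exact mul_le_mul (norm_dbar_le hu w) (kern_norm_le _) (norm_nonneg _) C.2
      · rw [hdb w hw]
        simp only [zero_mul, norm_zero]
        exact indicator_nonneg (fun _ _ => by positivity) _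
    · rw [integrable_indicator_iff hcu.isCompact.isClosed.measurableSet]
      exact (((locInt_kernel z).integrableOn_isCompact hcu.isCompact).norm).const_mul _
    · filter_upwards with w
      exact (kern_tendsto (z - w)).const_mul _
  have hB := approx_id hu.continuous hM z
  have hC : ∀ ρ : ℝ, 0 < ρ → ∫ w, dbar u w * kern ρ (z - w) =
      ∫ w, u w * ((ρ ^ 2 / (Complex.normSq (z - w) + ρ ^ 2) ^ 2 : ℝ) : ℂ) := by
    intro ρ hρ
    have hk : LipschitzWith ((ρ ^ 2)⁻¹).toNNReal (fun w => kern ρ (z - w)) := by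
      apply LipschitzWith.of_dist_le_mul
      intro a b
      rw [dist_eq_norm, dist_eq_norm, Real.coe_toNNReal _ (by positivity)]
      have := kern_lip hρ (z - a) (z - b)
      rwa [sub_sub_sub_cancel_left, norm_sub_rev b a] at this
    have hint : ∀ v : ℂ, Integrable (fun w => lineDeriv ℝ u w v * kern ρ (z - w)) := by
      intro v
      have hb : Integrable ((tsupport u).indicator (fun w => (C * ‖v‖) * ‖(z - w)⁻¹‖)) := by
        rw [integrable_indicator_iff hcu.isCompact.isClosed.measurableSet]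
        exact (((locInt_kernel z).integrableOn_isCompact hcu.isCompact).norm).const_mul _
      refine hb.mono' ?_ (Eventually.of_forall fun w => ?_)
      · exact (measurable_lineDeriv hu.continuous).aestronglyMeasurable.mul
          hk.continuous.aestronglyMeasurable
      · by_cases hw : w ∈ tsupport u
        · rw [indicator_of_mem hw, norm_mul, norm_inv]
          exact mul_le_mul (norm_lineDeriv_le hu w v) (kern_norm_le _) (norm_nonneg _)
            (by positivity)
        · rw [hsupp v w hw]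
          simp only [zero_mul, norm_zero]
          exact indicator_nonneg (fun _ _ => by positivity) _
    have hint2 : ∀ v : ℂ, Integrable (fun w => lineDeriv ℝ (fun w => kern ρ (z - w)) w v * u w) := by
      intro v
      have hb : Integrable ((tsupport u).indicator (fun _ : ℂ => (((ρ ^ 2)⁻¹).toNNReal * ‖v‖) * M)) := by
        rw [integrable_indicator_iff hcu.isCompact.isClosed.measurableSet]
        exact (continuous_const.locallyIntegrable).integrableOn_isCompact hcu.isCompact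
      refine hb.mono' ?_ (Eventually.of_forall fun w => ?_)
      · exact (measurable_lineDeriv hk.continuous).aestronglyMeasurable.mul
          hu.continuous.aestronglyMeasurable
      · by_cases hw : w ∈ tsupport u
        · rw [indicator_of_mem hw, norm_mul]
          exact mul_le_mul (norm_lineDeriv_le hk w v) (hM w) (norm_nonneg _) (by positivity)
        · rw [image_eq_zero_of_notMem_tsupport hw]
          simp only [mul_zero, norm_zero]
          exact indicator_nonneg (fun _ _ => mul_nonneg (by positivity)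
            ((norm_nonneg (u w)).trans (hM w))) _
    have hneg : ∀ v : ℂ, ∫ w, lineDeriv ℝ u w v * kern ρ (z - w) =
        - ∫ w, lineDeriv ℝ (fun w => kern ρ (z - w)) w v * u w := by
      intro v
      have h := ibp hk hu hcu (-v)
      rw [neg_neg] at h
      rw [← h, ← integral_neg]
      congr 1
      ext w
      rw [lineDeriv_neg]
      ring
    have e1 : ∀ w, dbar u w * kern ρ (z - w) = (1 / 2) * (lineDeriv ℝ u w 1 * kern ρ (z - w)) +
        (1 / 2 * Complex.I) * (lineDeriv ℝ u w Complex.I * kern ρ (z - w)) := by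
      intro w; unfold dbar; ring
    have e2 : ∀ w, u w * ((ρ ^ 2 / (Complex.normSq (z - w) + ρ ^ 2) ^ 2 : ℝ) : ℂ) =
        -((1 / 2) * (lineDeriv ℝ (fun w => kern ρ (z - w)) w 1 * u w) +
        (1 / 2 * Complex.I) * (lineDeriv ℝ (fun w => kern ρ (z - w)) w Complex.I * u w)) := by
      intro w
      have := dbar_kern hρ z w
      unfold dbar at this
      rw [← neg_eq_iff_eq_neg] at this
      rw [← this]
      ring
    simp_rw [e1, e2]
    rw [integral_add ((hint 1).const_mul _) ((hint Complex.I).const_mul _), integral_neg,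
      integral_add ((hint2 1).const_mul _) ((hint2 Complex.I).const_mul _),
      integral_const_mul, integral_const_mul, integral_const_mul, integral_const_mul,
      hneg, hneg]
    ring
  have hD : Tendsto (fun ρ : ℝ => ∫ w, dbar u w * kern ρ (z - w)) (𝓝[>] 0)
      (𝓝 (kappa * u z)) := by
    refine hB.congr' ?_
    filter_upwards [self_mem_nhdsWithin] with ρ hρ
    exact (hC ρ hρ).symm
  exact tendsto_nhds_unique hA hD

end Pool.Agent.Helper19.ZS
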