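import Mathlib
import Pool.Agent.Helper19.ZS.CP

/-!
The corrected function `g * exp (-h)`, with `h` the Cauchy transform of `dbar g / g`, is
holomorphic.
-/

open MeasureTheory Filter Topology Metric Set
open scoped NNReal ENNReal

namespace Pool.Agent.Helper19.ZS

/-- Cauchy transform. -/
noncomputable def cauchyT (ν : ℂ → ℂ) (z : ℂ) : ℂ := ∫ w, ν w * (z - w)⁻¹

theorem integrable_off {ν : ℂ → ℂ} (hν : Integrable ν) {z z₁ : ℂ} {r : ℝ} (hr : 0 < r)
    (h0 : ∀ᵐ w, w ∈ ball z₁ r → ν w = 0) (hz : z ∈ ball z₁ (r / 2)) :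
    Integrable (fun w => ν w * (z - w)⁻¹) := by
  refine (hν.norm.mul_const (2 / r)).mono' ?_ ?_
  · exact hν.aestronglyMeasurable.mul
      ((measurable_const.sub measurable_id).inv).aestronglyMeasurable
  · filter_upwards [h0] with w hw
    by_cases hwb : w ∈ ball z₁ r
    · rw [hw hwb]; simp
    · rw [norm_mul, norm_inv]
      gcongr
      rw [mem_ball, not_lt] at hwb
      rw [mem_ball] at hz
      have h1 : r / 2 ≤ ‖z - w‖ := by
        have := dist_triangle w z z₁
        rw [dist_comm w z, dist_eq_norm z w] at this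
        linarith
      calc ‖z - w‖⁻¹ ≤ (r / 2)⁻¹ := by
            apply inv_anti₀ (by positivity) h1
        _ = 2 / r := by rw [inv_div]

theorem cauchyT_differentiableAt {ν : ℂ → ℂ} (hν : Integrable ν) {z z₁ : ℂ} {r : ℝ} (hr : 0 < r)
    (h0 : ∀ᵐ w, w ∈ ball z₁ r → ν w = 0) (hz : z ∈ ball z₁ (r / 2)) :
    DifferentiableAt ℂ (cauchyT ν) z := by
  have hmeas : ∀ z : ℂ, AEStronglyMeasurable (fun w => ν w * (z - w)⁻¹) volume := fun z =>
    hν.aestronglyMeasurable.mul ((measurable_const.sub measurable_id).inv).aestronglyMeasurable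
  have key : ∀ z ∈ ball z₁ (r / 2), ∀ w, w ∉ ball z₁ r → r / 2 ≤ ‖z - w‖ := by
    intro z hz w hwb
    rw [mem_ball, not_lt] at hwb
    rw [mem_ball] at hz
    have := dist_triangle w z z₁
    rw [dist_comm w z, dist_eq_norm z w] at this
    linarith
  have h := hasDerivAt_integral_of_dominated_loc_of_deriv_le (μ := volume) (𝕜 := ℂ)
    (F := fun z w => ν w * (z - w)⁻¹) (F' := fun z w => ν w * (-((z - w) ^ 2)⁻¹))
    (s := ball z₁ (r / 2)) (x₀ := z) (bound := fun w => ‖ν w‖ * (4 / r ^ 2))
    (isOpen_ball.mem_nhds hz) (Eventually.of_forall hmeas)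
    (integrable_off hν hr h0 hz) ?_ ?_ (hν.norm.mul_const _) ?_
  · exact h.2.differentiableAt
  · exact hν.aestronglyMeasurable.mul
      ((((measurable_const.sub measurable_id).pow_const 2).inv).neg).aestronglyMeasurable
  · filter_upwards [h0] with w hw z hz
    by_cases hwb : w ∈ ball z₁ r
    · rw [hw hwb]; simp
    · rw [norm_mul, norm_neg, norm_inv, norm_pow]
      gcongr
      have h1 := key z hz w hwb
      calc (‖z - w‖ ^ 2)⁻¹ ≤ ((r / 2) ^ 2)⁻¹ := by
            apply inv_anti₀ (by positivity)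
            gcongr
        _ = 4 / r ^ 2 := by field_simp; norm_num
  · filter_upwards [h0] with w hw z hz
    by_cases hwb : w ∈ ball z₁ r
    · rw [hw hwb]; simp only [zero_mul]; exact hasDerivAt_const _ _
    · have h1 := key z hz w hwb
      have h2 : z - w ≠ 0 := by
        rw [← norm_pos_iff]; linarith
      have h3 : HasDerivAt (fun z => z - w) 1 z := (hasDerivAt_id z).sub_const w
      have h4 := (h3.inv h2).const_mul (ν w)
      refine h4.congr_deriv ?_
      field_simp

theorem log_lip : LipschitzOnWith 2 Complex.log (ball (1 : ℂ) (1 / 2)) := by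
  have hre : ∀ z ∈ ball (1 : ℂ) (1 / 2), 1 / 2 < z.re := by
    intro z hz
    rw [mem_ball, dist_eq_norm] at hz
    have := Complex.abs_re_le_norm (z - 1)
    rw [Complex.sub_re, Complex.one_re] at this
    have := (abs_le.1 this).1
    linarith
  apply Convex.lipschitzOnWith_of_nnnorm_deriv_le (𝕜 := ℂ) _ _ (convex_ball _ _)
  · intro z hz
    apply Complex.differentiableAt_log
    left
    linarith [hre z hz]
  · intro z hz
    have h1 := hre z hz
    have h2 : z ∈ Complex.slitPlane := Or.inl (by linarith)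
    rw [(Complex.hasDerivAt_log h2).deriv]
    rw [← NNReal.coe_le_coe, coe_nnnorm, norm_inv]
    have h3 : 1 / 2 ≤ ‖z‖ := h1.le.trans (Complex.re_le_norm z)
    calc ‖z‖⁻¹ ≤ (1 / 2)⁻¹ := inv_anti₀ (by norm_num) h3
      _ = 2 := by norm_num

theorem dbar_mul {a b : ℂ → ℂ} {w : ℂ} (ha : DifferentiableAt ℝ a w) (hb : DifferentiableAt ℝ b w) :
    dbar (fun w => a w * b w) w = dbar a w * b w + a w * dbar b w := by
  have key : ∀ v : ℂ, lineDeriv ℝ (fun w => a w * b w) w v =
      lineDeriv ℝ a w v * b w + a w * lineDeriv ℝ b w v := by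
    intro v
    have h1 := ha.lineDifferentiableAt (v := v) |>.hasLineDerivAt
    have h2 := hb.lineDifferentiableAt (v := v) |>.hasLineDerivAt
    have h3 : HasLineDerivAt ℝ (fun w => a w * b w)
        (lineDeriv ℝ a w v * b w + a w * lineDeriv ℝ b w v) w v := by
      unfold HasLineDerivAt at h1 h2 ⊢
      have := h1.fun_mul h2
      simpa using this
    exact h3.lineDeriv
  unfold dbar
  rw [key, key]
  ring

theorem dbar_congr {a b : ℂ → ℂ} {w : ℂ} (h : a =ᶠ[𝓝 w] b) : dbar a w = dbar b w := by
  unfold dbar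
  rw [h.lineDeriv_eq, h.lineDeriv_eq]

theorem dbar_log {g : ℂ → ℂ} {c w : ℂ} (hc : c ≠ 0) (hg : DifferentiableAt ℝ g w)
    (hs : g w / c ∈ Complex.slitPlane) :
    dbar (fun w => Complex.log (g w / c)) w = dbar g w / g w := by
  have hgw : g w ≠ 0 := by
    rintro h
    rw [h, zero_div] at hs
    exact Complex.slitPlane_ne_zero hs rfl
  have key : ∀ v : ℂ, lineDeriv ℝ (fun w => Complex.log (g w / c)) w v =
      lineDeriv ℝ g w v / g w := by
    intro v
    have h1 := hg.lineDifferentiableAt (v := v) |>.hasLineDerivAt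
    have h3 : HasLineDerivAt ℝ (fun w => Complex.log (g w / c))
        (lineDeriv ℝ g w v / g w) w v := by
      unfold HasLineDerivAt at h1 ⊢
      have h2 : HasDerivAt (fun t : ℝ => g (w + t • v) / c) (lineDeriv ℝ g w v / c) 0 :=
        h1.div_const c
      have h4 := h2.clog_real (by simpa using hs)
      refine h4.congr_deriv ?_
      simp only [zero_smul, add_zero]
      field_simp
    exact h3.lineDeriv
  unfold dbar
  rw [key, key]
  ring

theorem differentiableAt_log_comp {g : ℂ → ℂ} {c w : ℂ} (hg : DifferentiableAt ℝ g w)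
    (hs : g w / c ∈ Complex.slitPlane) :
    DifferentiableAt ℝ (fun w => Complex.log (g w / c)) w := by
  have h1 : DifferentiableAt ℝ Complex.log (g w / c) :=
    (Complex.differentiableAt_log hs).restrictScalars ℝ
  have h2 : DifferentiableAt ℝ (fun w => g w / c) w := by
    simp_rw [div_eq_mul_inv]
    exact hg.mul_const c⁻¹
  exact h1.comp w h2

/-- The main local statement. -/
theorem corrected_differentiableAt {g μ : ℂ → ℂ} {C : ℝ≥0} (hg : LipschitzWith C g)
    (hμ : Integrable μ) {z₁ : ℂ} (hz₁ : g z₁ ≠ 0) {R : ℝ} (hR : 0 < R)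
    (h : ∀ᵐ w, w ∈ ball z₁ R → μ w = dbar g w / g w) :
    DifferentiableAt ℂ (fun z => g z * Complex.exp (-((kappa : ℂ)⁻¹ * cauchyT μ z))) z₁ := by
  classical
  have hκ : (kappa : ℂ) ≠ 0 := by exact_mod_cast kappa_pos.ne'
  -- shrink the ball
  obtain ⟨R', hR', hR'R, hq⟩ : ∃ R' > 0, R' ≤ R ∧ ∀ z ∈ ball z₁ R', g z / g z₁ ∈ ball (1 : ℂ) (1 / 2) := by
    have hc : ContinuousAt (fun z => g z / g z₁) z₁ := (hg.continuous.continuousAt).div_const _
    have h1 : (fun z => g z / g z₁) ⁻¹' ball (1 : ℂ) (1 / 2) ∈ 𝓝 z₁ := by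
      apply hc
      show ball (1 : ℂ) (1 / 2) ∈ 𝓝 (g z₁ / g z₁)
      rw [div_self hz₁]
      exact ball_mem_nhds _ (by norm_num)
    obtain ⟨ε, hε, hsub⟩ := Metric.mem_nhds_iff.1 h1
    exact ⟨min ε R, lt_min hε hR, min_le_right _ _, fun z hz =>
      hsub (ball_subset_ball (min_le_left _ _) hz)⟩
  have hslit : ∀ z ∈ ball z₁ R', g z / g z₁ ∈ Complex.slitPlane := by
    intro z hz
    left
    have h1 := hq z hz
    rw [mem_ball, dist_eq_norm] at h1
    have := Complex.abs_re_le_norm (g z / g z₁ - 1)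
    rw [Complex.sub_re, Complex.one_re] at this
    have := (abs_le.1 this).1
    linarith
  have hgne : ∀ z ∈ ball z₁ R', g z ≠ 0 := by
    intro z hz h0
    have := hslit z hz
    rw [h0, zero_div] at this
    exact Complex.slitPlane_ne_zero this rfl
  obtain ⟨Λ, hΛ, hΛeq⟩ := log_lip.extend_finite_dimension
  set KΛ := lipschitzExtensionConstant ℂ * 2 with hKΛ
  let q : ℂ → ℂ := fun z => g z / g z₁
  have hqlip : LipschitzWith (C * ‖(g z₁)⁻¹‖₊) q := by
    apply LipschitzWith.of_dist_le_mul
    intro a b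
    simp only [q]
    rw [dist_eq_norm, div_sub_div_same, div_eq_mul_inv, norm_mul, NNReal.coe_mul, coe_nnnorm]
    have := hg.norm_sub_le a b
    rw [dist_eq_norm]
    calc ‖g a - g b‖ * ‖(g z₁)⁻¹‖ ≤ (C * ‖a - b‖) * ‖(g z₁)⁻¹‖ := by gcongr
      _ = _ := by ring
  have hlip : LipschitzWith (KΛ * (C * ‖(g z₁)⁻¹‖₊)) (fun z => Λ (q z)) := hΛ.comp hqlip
  set K' := KΛ * (C * ‖(g z₁)⁻¹‖₊) with hK'
  -- bump function
  let χ : ContDiffBump z₁ := ⟨R' / 4, R' / 2, by positivity, by linarith⟩
  obtain ⟨Kχ, hχlip⟩ : ∃ Kχ : ℝ≥0, LipschitzWith Kχ (χ : ℂ → ℝ) :=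
    (χ.contDiff (n := 1)).lipschitzWith_of_hasCompactSupport χ.hasCompactSupport (by simp)
  obtain ⟨M, hM⟩ : ∃ M : ℝ, ∀ w ∈ closedBall z₁ (R' / 2), ‖Λ (q w)‖ ≤ M :=
    (isCompact_closedBall z₁ (R' / 2)).exists_bound_of_continuousOn hlip.continuous.continuousOn
  have hM0 : 0 ≤ M := (norm_nonneg _).trans (hM z₁ (mem_closedBall_self (by positivity)))
  let u : ℂ → ℂ := fun w => (χ w : ℂ) * Λ (q w)
  have hχout : ∀ w, w ∉ closedBall z₁ (R' / 2) → χ w = 0 := by
    intro w hw
    apply χ.zero_of_le_dist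
    rw [mem_closedBall, not_le] at hw
    exact hw.le
  have hulip : LipschitzWith (Kχ * M.toNNReal + K') u := by
    apply LipschitzWith.of_dist_le_mul
    have main : ∀ a ∈ closedBall z₁ (R' / 2), ∀ b, dist (u a) (u b) ≤ (Kχ * M.toNNReal + K' : ℝ≥0) * dist a b := by
      intro a ha b
      have e : u a - u b = ((χ a - χ b : ℝ) : ℂ) * Λ (q a) + (χ b : ℂ) * (Λ (q a) - Λ (q b)) := by
        simp only [u]; push_cast; ring
      rw [dist_eq_norm, e]
      refine (norm_add_le _ _).trans ?_
      rw [norm_mul, norm_mul, Complex.norm_real, Complex.norm_real]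
      have h1 : ‖χ a - χ b‖ ≤ Kχ * dist a b := by
        rw [dist_eq_norm]; exact hχlip.norm_sub_le a b
      have h2 : ‖Λ (q a) - Λ (q b)‖ ≤ K' * dist a b := by
        rw [dist_eq_norm]; exact hlip.norm_sub_le a b
      have h3 : ‖χ b‖ ≤ 1 := by
        rw [Real.norm_of_nonneg χ.nonneg]; exact χ.le_one
      have h4 := hM a ha
      push_cast
      rw [Real.coe_toNNReal _ hM0]
      have h5 : ‖χ a - χ b‖ * ‖Λ (q a)‖ ≤ (Kχ * dist a b) * M :=
        mul_le_mul h1 h4 (norm_nonneg _) (by positivity)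
      have h6 : ‖χ b‖ * ‖Λ (q a) - Λ (q b)‖ ≤ 1 * (K' * dist a b) :=
        mul_le_mul h3 h2 (norm_nonneg _) zero_le_one
      linarith
    intro a b
    by_cases ha : a ∈ closedBall z₁ (R' / 2)
    · exact main a ha b
    by_cases hb : b ∈ closedBall z₁ (R' / 2)
    · rw [dist_comm, dist_comm a b]; exact main b hb a
    · have h1 : u a = 0 := by simp only [u]; rw [hχout a ha]; simp
      have h2 : u b = 0 := by simp only [u]; rw [hχout b hb]; simp
      rw [h1, h2, dist_self]
      positivity
  have hucs : HasCompactSupport u := by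
    have : HasCompactSupport (fun w => (χ w : ℂ)) :=
      χ.hasCompactSupport.comp_left (g := fun x : ℝ => (x : ℂ)) (by simp)
    exact this.mul_right
  -- the two pieces
  let χc : ℂ → ℂ := fun w => (χ w : ℂ)
  have hχc_diff : ∀ w, DifferentiableAt ℝ χc w := by
    intro w
    exact (Complex.ofRealCLM.differentiableAt).comp w ((χ.contDiff (n := 1)).differentiable (by simp) w)
  have hχc_lip : LipschitzWith Kχ χc := by
    apply LipschitzWith.of_dist_le_mul
    intro a b
    simp only [χc]
    rw [dist_eq_norm, ← Complex.ofReal_sub, Complex.norm_real, dist_eq_norm]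
    exact hχlip.norm_sub_le a b
  let A : ℂ → ℂ := fun w => dbar χc w * Λ (q w)
  let B : ℂ → ℂ := fun w => (1 - χc w) * μ w
  have hdbarχ_out : ∀ w, w ∉ closedBall z₁ (R' / 2) → dbar χc w = 0 := by
    intro w hw
    have h1 : χc =ᶠ[𝓝 w] fun _ => 0 := by
      filter_upwards [isClosed_closedBall.isOpen_compl.mem_nhds hw] with x hx
      simp only [χc]
      rw [hχout x hx]; simp
    rw [dbar_congr h1]
    simp [dbar, lineDeriv]
  have hdbarχ_in : ∀ w, w ∈ ball z₁ (R' / 4) → dbar χc w = 0 := by
    intro w hw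
    have h1 : χc =ᶠ[𝓝 w] fun _ => 1 := by
      filter_upwards [isOpen_ball.mem_nhds hw] with x hx
      simp only [χc]
      rw [χ.one_of_mem_closedBall (ball_subset_closedBall hx)]; simp
    rw [dbar_congr h1]
    simp [dbar, lineDeriv]
  have hu_dbar : ∀ᵐ w, dbar u w = A w + χc w * μ w := by
    filter_upwards [h, hg.ae_differentiableAt] with w hw hgd
    by_cases hwb : w ∈ ball z₁ R'
    · have e1 : (fun w => Λ (q w)) =ᶠ[𝓝 w] fun w => Complex.log (g w / g z₁) := by
        filter_upwards [isOpen_ball.mem_nhds hwb] with x hx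
        exact (hΛeq (hq x hx)).symm
      have hd : DifferentiableAt ℝ (fun w => Λ (q w)) w :=
        (differentiableAt_log_comp hgd (hslit w hwb)).congr_of_eventuallyEq e1
      have e2 : dbar u w = dbar χc w * Λ (q w) + χc w * dbar (fun w => Λ (q w)) w :=
        dbar_mul (hχc_diff w) hd
      rw [e2, dbar_congr e1, dbar_log hz₁ hgd (hslit w hwb), hw (ball_subset_ball hR'R hwb)]
    · have hwc : w ∉ closedBall z₁ (R' / 2) := by
        intro hc
        apply hwb
        exact closedBall_subset_ball (by linarith) hc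
      have h1 : u =ᶠ[𝓝 w] fun _ => 0 := by
        filter_upwards [isClosed_closedBall.isOpen_compl.mem_nhds hwc] with x hx
        simp only [u]
        rw [hχout x hx]; simp
      rw [dbar_congr h1]
      have h2 : χc w = 0 := by simp only [χc]; rw [hχout w hwc]; simp
      simp only [A]
      rw [hdbarχ_out w hwc, h2]
      simp [dbar, lineDeriv]
  have hAint : Integrable A := by
    have hb : Integrable ((closedBall z₁ (R' / 2)).indicator (fun _ : ℂ => (Kχ : ℝ) * M)) := by
      rw [integrable_indicator_iff isClosed_closedBall.measurableSet]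
      exact (continuous_const.locallyIntegrable).integrableOn_isCompact (isCompact_closedBall _ _)
    refine hb.mono' ?_ (Eventually.of_forall fun w => ?_)
    · exact (measurable_dbar hχc_lip.continuous).aestronglyMeasurable.mul
        hlip.continuous.aestronglyMeasurable
    · by_cases hw : w ∈ closedBall z₁ (R' / 2)
      · rw [indicator_of_mem hw]
        simp only [A]
        rw [norm_mul]
        exact mul_le_mul (norm_dbar_le hχc_lip w) (hM w hw) (norm_nonneg _) (by positivity)
      · simp only [A]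
        rw [hdbarχ_out w hw, zero_mul, norm_zero]
        exact indicator_nonneg (fun _ _ => by positivity) _
  have hBint : Integrable B := by
    refine hμ.norm.mono' ?_ (Eventually.of_forall fun w => ?_)
    · exact ((continuous_const.sub hχc_lip.continuous).aestronglyMeasurable).mul
        hμ.aestronglyMeasurable
    · simp only [B]
      rw [norm_mul]
      have h1 : ‖1 - χc w‖ ≤ 1 := by
        simp only [χc]
        have e : (1 : ℂ) - (χ w : ℂ) = ((1 - χ w : ℝ) : ℂ) := by push_cast; ring
        rw [e, Complex.norm_real, Real.norm_of_nonneg (by linarith [χ.le_one (x := w)])]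
        linarith [χ.nonneg (x := w)]
      calc ‖1 - χc w‖ * ‖μ w‖ ≤ 1 * ‖μ w‖ := by gcongr
        _ = ‖μ w‖ := one_mul _
  have hA0 : ∀ᵐ w, w ∈ ball z₁ (R' / 4) → A w = 0 :=
    Eventually.of_forall fun w hw => by simp only [A]; rw [hdbarχ_in w hw, zero_mul]
  have hB0 : ∀ᵐ w, w ∈ ball z₁ (R' / 4) → B w = 0 :=
    Eventually.of_forall fun w hw => by
      simp only [B, χc]
      rw [χ.one_of_mem_closedBall (ball_subset_closedBall hw)]
      simp
  -- integrability of χ μ / (z - w)
  have hχμ : ∀ z, Integrable (fun w => χc w * μ w * (z - w)⁻¹) := by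
    intro z
    have hmin : ∃ m > 0, ∀ w ∈ closedBall z₁ (R' / 2), m ≤ ‖g w‖ := by
      have hc : ContinuousOn (fun w => ‖g w‖) (closedBall z₁ (R' / 2)) :=
        hg.continuous.norm.continuousOn
      obtain ⟨x, hx, hmin⟩ := (isCompact_closedBall z₁ (R' / 2)).exists_isMinOn
        ⟨z₁, mem_closedBall_self (by positivity)⟩ hc
      refine ⟨‖g x‖, norm_pos_iff.2 (hgne x (closedBall_subset_ball (by linarith) hx)), ?_⟩
      intro w hw
      exact hmin hw
    obtain ⟨m, hm, hmin⟩ := hmin
    have hb : Integrable ((closedBall z₁ (R' / 2)).indicator (fun w : ℂ => (C / m : ℝ) * ‖(z - w)⁻¹‖)) := by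
      rw [integrable_indicator_iff isClosed_closedBall.measurableSet]
      exact (((locInt_kernel z).integrableOn_isCompact (isCompact_closedBall _ _)).norm).const_mul _
    refine hb.mono' ?_ ?_
    · exact (hχc_lip.continuous.aestronglyMeasurable.mul hμ.aestronglyMeasurable).mul
        ((measurable_const.sub measurable_id).inv).aestronglyMeasurable
    · filter_upwards [h] with w hw
      by_cases hwb : w ∈ closedBall z₁ (R' / 2)
      · rw [indicator_of_mem hwb, norm_mul, norm_mul]
        have h1 : ‖χc w‖ ≤ 1 := by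
          simp only [χc]
          rw [Complex.norm_real, Real.norm_of_nonneg χ.nonneg]; exact χ.le_one
        have h2 : ‖μ w‖ ≤ C / m := by
          rw [hw (ball_subset_ball hR'R (closedBall_subset_ball (by linarith) hwb)), norm_div]
          exact div_le_div₀ C.2 (norm_dbar_le hg w) hm (hmin w hwb)
        have h3 : ‖χc w‖ * ‖μ w‖ ≤ C / m := by
          calc ‖χc w‖ * ‖μ w‖ ≤ 1 * (C / m) := mul_le_mul h1 h2 (norm_nonneg _) zero_le_one
            _ = C / m := one_mul _
        exact mul_le_mul_of_nonneg_right h3 (norm_nonneg _)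
      · have h2 : χc w = 0 := by simp only [χc]; rw [hχout w hwb]; simp
        rw [h2]
        simp only [zero_mul, norm_zero]
        exact indicator_nonneg (fun _ _ => by positivity) _
  -- formula near z₁
  have hform : ∀ z ∈ ball z₁ (R' / 4 / 2),
      g z * Complex.exp (-((kappa : ℂ)⁻¹ * cauchyT μ z)) =
        g z₁ * Complex.exp ((kappa : ℂ)⁻¹ * (cauchyT A z - cauchyT B z)) := by
    intro z hz
    have hzb : z ∈ ball z₁ R' := ball_subset_ball (by linarith) hz
    have h1 : (kappa : ℂ) * u z = cauchyT A z + ∫ w, χc w * μ w * (z - w)⁻¹ := by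
      rw [← cauchy_pompeiu hulip hucs z]
      unfold cauchyT
      rw [← integral_add (integrable_off hAint (by positivity) hA0 hz) (hχμ z)]
      apply integral_congr_ae
      filter_upwards [hu_dbar] with w hw
      rw [hw]; ring
    have h2 : cauchyT μ z = cauchyT B z + ∫ w, χc w * μ w * (z - w)⁻¹ := by
      unfold cauchyT
      rw [← integral_add (integrable_off hBint (by positivity) hB0 hz) (hχμ z)]
      congr 1
      ext w
      simp only [B]
      ring
    have h3 : u z = Complex.log (g z / g z₁) := by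
      simp only [u]
      rw [χ.one_of_mem_closedBall, Complex.ofReal_one, one_mul]
      · exact (hΛeq (hq z hzb)).symm
      · apply ball_subset_closedBall
        exact ball_subset_ball (by show R' / 4 / 2 ≤ R' / 4; linarith) hz
    have h4 : g z = g z₁ * Complex.exp (u z) := by
      rw [h3, Complex.exp_log (div_ne_zero (hgne z hzb) hz₁)]
      field_simp
    rw [h4, mul_assoc, ← Complex.exp_add]
    congr 2
    have h5 : u z = (kappa : ℂ)⁻¹ * (cauchyT A z + ∫ w, χc w * μ w * (z - w)⁻¹) := by
      rw [← h1]; field_simp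
    rw [h5, h2]
    ring
  have hmem : z₁ ∈ ball z₁ (R' / 4 / 2) := mem_ball_self (by positivity)
  have hd : DifferentiableAt ℂ (fun z => g z₁ * Complex.exp ((kappa : ℂ)⁻¹ * (cauchyT A z - cauchyT B z))) z₁ := by
    have h1 := cauchyT_differentiableAt hAint (by positivity) hA0 hmem
    have h2 := cauchyT_differentiableAt hBint (by positivity) hB0 hmem
    exact (((h1.sub h2).const_mul _).cexp).const_mul _
  refine hd.congr_of_eventuallyEq ?_
  filter_upwards [isOpen_ball.mem_nhds hmem] with z hz
  exact hform z hz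

end Pool.Agent.Helper19.ZS
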