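import Mathlib
import Pool.Agent.Helper19.ZS.CP

/-!
Integral estimates for the outer collar of a bounded Lipschitz domain.
-/

open MeasureTheory Filter Topology Metric Set
open scoped NNReal ENNReal

namespace Pool.Agent.Helper19.ZS

theorem unit_mul_conj {u : ℂ} (hu : ‖u‖ = 1) (w : ℂ) : u * (starRingEnd ℂ u * w) = w := by
  rw [← mul_assoc, Complex.mul_conj, Complex.normSq_eq_norm_sq, hu]; simp

theorem lintegral_chart {u : ℂ} (hu : ‖u‖ = 1) (f : ℂ → ℝ≥0∞) (hf : Measurable f) :
    ∫⁻ w, f w = ∫⁻ x : ℝ, ∫⁻ y : ℝ, f ((starRingEnd ℂ u) * (⟨x, y⟩ : ℂ)) := by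
  have hu' : ‖starRingEnd ℂ u‖ = 1 := by rw [RCLike.norm_conj, hu]
  let c : Circle := ⟨starRingEnd ℂ u, by simpa [Submonoid.unitSphere] using hu'⟩
  have h1 : MeasurePreserving (rotation c) volume volume := (rotation c).measurePreserving
  have h2 : ∫⁻ w, f w = ∫⁻ w, f (rotation c w) := (h1.lintegral_comp hf).symm
  have h3 : MeasurePreserving Complex.measurableEquivRealProd.symm volume volume :=
    Complex.volume_preserving_equiv_real_prod.symm _
  have hm : Measurable (fun w => f (rotation c w)) := hf.comp h1.measurable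
  have h4 : ∫⁻ p : ℝ × ℝ, f (rotation c (Complex.measurableEquivRealProd.symm p)) =
      ∫⁻ w, f (rotation c w) := h3.lintegral_comp hm
  rw [h2, ← h4, Measure.volume_eq_prod,
    lintegral_prod (fun p : ℝ × ℝ => f (rotation c (Complex.measurableEquivRealProd.symm p)))
      ((hm.comp h3.measurable).aemeasurable)]
  rfl

theorem slice_bound {b : ℝ → ℝ} (hb : ∀ y, 0 ≤ b y) {ε k c : ℝ} (hε : 0 ≤ ε) (hk : 0 ≤ k)
    (hlip : ∀ y y', |b y - b y'| ≤ ε * |y - y'|) (hεk : ε * k ≤ 1 / 2) :
    ∫⁻ y, ({y | y ≤ c ∧ c - y ≤ k * b y}.indicator (fun y => ENNReal.ofReal (b y)⁻¹)) y ≤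
      ENNReal.ofReal (3 * k) := by
  have key : ∀ y ∈ {y | y ≤ c ∧ c - y ≤ k * b y}, b c ≤ 3 / 2 * b y ∧ b y ≤ 2 * b c := by
    rintro y ⟨h1, h2⟩
    have h3 := hlip y c
    have h4 : |y - c| = c - y := by rw [abs_sub_comm, abs_of_nonneg (by linarith)]
    rw [h4] at h3
    have h5 : ε * (c - y) ≤ b y / 2 := by
      calc ε * (c - y) ≤ ε * (k * b y) := by gcongr
        _ = (ε * k) * b y := by ring
        _ ≤ 1 / 2 * b y := by have := hb y; gcongr
        _ = b y / 2 := by ring
    have h6 := abs_le.1 (h3.trans h5)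
    constructor <;> linarith [h6.1, h6.2]
  rcases eq_or_lt_of_le (hb c) with h0 | h0
  · have : ∀ y, ({y | y ≤ c ∧ c - y ≤ k * b y}.indicator (fun y => ENNReal.ofReal (b y)⁻¹)) y = 0 := by
      intro y
      by_cases hy : y ∈ {y | y ≤ c ∧ c - y ≤ k * b y}
      · rw [indicator_of_mem hy]
        have h1 := (key y hy).2
        have h2 : b y = 0 := le_antisymm (by linarith) (hb y)
        rw [h2]; simp
      · rw [indicator_of_notMem hy]
    rw [lintegral_congr this, lintegral_zero]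
    exact zero_le
  · calc ∫⁻ y, ({y | y ≤ c ∧ c - y ≤ k * b y}.indicator (fun y => ENNReal.ofReal (b y)⁻¹)) y
        ≤ ∫⁻ y, (Icc (c - 2 * k * b c) c).indicator (fun _ => ENNReal.ofReal (3 / 2 * (b c)⁻¹)) y := by
          apply lintegral_mono
          intro y
          by_cases hy : y ∈ {y | y ≤ c ∧ c - y ≤ k * b y}
          · have h1 := key y hy
            have h2 : y ∈ Icc (c - 2 * k * b c) c := by
              refine ⟨?_, hy.1⟩
              have h3 := hy.2
              have : k * b y ≤ k * (2 * b c) := by gcongr; exact h1.2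
              linarith
            rw [indicator_of_mem hy, indicator_of_mem h2]
            apply ENNReal.ofReal_le_ofReal
            have hby : 0 < b y := by linarith [h1.1]
            rw [inv_le_comm₀ hby (by positivity), mul_inv, inv_inv]
            linarith [h1.1]
          · rw [indicator_of_notMem hy]; exact zero_le
      _ = ENNReal.ofReal (3 / 2 * (b c)⁻¹) * ENNReal.ofReal (2 * k * b c) := by
          rw [lintegral_indicator measurableSet_Icc, setLIntegral_const, Real.volume_Icc]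
          congr 2; ring
      _ = ENNReal.ofReal (3 * k) := by
          rw [← ENNReal.ofReal_mul (by positivity)]
          congr 1
          field_simp

theorem log_bound {a : ℝ} (ha : 0 < a) (ha1 : a ≤ 1) :
    ∫⁻ s : ℝ, (Icc (-1 : ℝ) 1).indicator (fun s => ENNReal.ofReal (max |s| a)⁻¹) s ≤
      ENNReal.ofReal (4 + 4 * Real.log a⁻¹) := by
  have hcont : Continuous fun s : ℝ => 2 * (|s| + a)⁻¹ := by
    apply Continuous.mul continuous_const
    apply Continuous.inv₀ (by fun_prop)
    intro s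
    have := abs_nonneg s
    positivity
  have h1 : ∀ s : ℝ, (max |s| a)⁻¹ ≤ 2 * (|s| + a)⁻¹ := by
    intro s
    have hs := abs_nonneg s
    have hm : 0 < max |s| a := lt_max_of_lt_right ha
    have h2 : |s| + a ≤ 2 * max |s| a := by
      have := le_max_left |s| a
      have := le_max_right |s| a
      linarith
    rw [← div_eq_mul_inv, le_div_iff₀ (by positivity), inv_mul_eq_div, div_le_iff₀ hm]
    exact h2
  have hI1 : ∫ s in (0:ℝ)..1, 2 * (|s| + a)⁻¹ = 2 * (Real.log (1 + a) - Real.log a) := by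
    have hd : ∀ s ∈ uIcc (0:ℝ) 1, HasDerivAt (fun s => 2 * Real.log (s + a)) (2 * (|s| + a)⁻¹) s := by
      intro s hs
      rw [uIcc_of_le zero_le_one] at hs
      have hs0 : 0 < s + a := by linarith [hs.1]
      rw [abs_of_nonneg hs.1]
      have := ((hasDerivAt_id s).add_const a).log hs0.ne'
      have := this.const_mul 2
      simpa [div_eq_mul_inv] using this
    rw [intervalIntegral.integral_eq_sub_of_hasDerivAt hd (hcont.intervalIntegrable _ _)]
    rw [zero_add]; ring
  have hI2 : ∫ s in (-1:ℝ)..0, 2 * (|s| + a)⁻¹ = 2 * (Real.log (1 + a) - Real.log a) := by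
    have hd : ∀ s ∈ uIcc (-1:ℝ) 0, HasDerivAt (fun s => -(2 * Real.log (a - s))) (2 * (|s| + a)⁻¹) s := by
      intro s hs
      rw [uIcc_of_le (by norm_num)] at hs
      have hs0 : 0 < a - s := by linarith [hs.2]
      rw [abs_of_nonpos hs.2]
      have := ((hasDerivAt_id s).const_sub a).log hs0.ne'
      have := (this.const_mul 2).neg
      refine this.congr_deriv ?_
      simp only [id]
      rw [show -s + a = a - s by ring]
      field_simp
    rw [intervalIntegral.integral_eq_sub_of_hasDerivAt hd (hcont.intervalIntegrable _ _)]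
    rw [sub_zero, show a - -1 = 1 + a by ring]; ring
  have hI : ∫ s in (-1:ℝ)..1, 2 * (|s| + a)⁻¹ ≤ 4 + 4 * Real.log a⁻¹ := by
    rw [← intervalIntegral.integral_add_adjacent_intervals (hcont.intervalIntegrable (-1) 0)
      (hcont.intervalIntegrable 0 1), hI1, hI2, Real.log_inv]
    have : Real.log (1 + a) ≤ 1 := by
      have := Real.log_le_sub_one_of_pos (show 0 < 1 + a by linarith)
      linarith
    linarith
  rw [lintegral_indicator measurableSet_Icc]
  calc ∫⁻ s in Icc (-1:ℝ) 1, ENNReal.ofReal (max |s| a)⁻¹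
      ≤ ∫⁻ s in Icc (-1:ℝ) 1, ENNReal.ofReal (2 * (|s| + a)⁻¹) :=
        lintegral_mono fun s => ENNReal.ofReal_le_ofReal (h1 s)
    _ = ENNReal.ofReal (∫ s in Icc (-1:ℝ) 1, 2 * (|s| + a)⁻¹) := by
        rw [ofReal_integral_eq_lintegral_ofReal]
        · exact hcont.continuousOn.integrableOn_Icc
        · filter_upwards with s
          have := abs_nonneg s
          positivity
    _ = ENNReal.ofReal (∫ s in (-1:ℝ)..1, 2 * (|s| + a)⁻¹) := by
        rw [intervalIntegral.integral_of_le (by norm_num), integral_Icc_eq_integral_Ioc]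
    _ ≤ ENNReal.ofReal (4 + 4 * Real.log a⁻¹) := ENNReal.ofReal_le_ofReal hI

theorem line_bound {a r : ℝ} (ha : 0 < a) (ha1 : a ≤ 1) (hr : 0 < r) (x₀ x₁ : ℝ) :
    ∫⁻ x : ℝ, {x | |x - x₁| < r}.indicator (fun x => ENNReal.ofReal (max |x - x₀| a)⁻¹) x ≤
      ENNReal.ofReal (4 + 4 * Real.log a⁻¹ + 2 * r) := by
  have hlog : 0 ≤ Real.log a⁻¹ := Real.log_nonneg (one_le_inv_iff₀.2 ⟨ha, ha1⟩)
  have hset : {x : ℝ | |x - x₁| < r} = Ioo (x₁ - r) (x₁ + r) := by
    ext x
    rw [mem_setOf_eq, abs_lt, mem_Ioo]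
    constructor <;> rintro ⟨h1, h2⟩ <;> constructor <;> linarith
  have hmeas : Measurable fun x : ℝ => (Icc (-1 : ℝ) 1).indicator
      (fun s => ENNReal.ofReal (max |s| a)⁻¹) (x - x₀) := by
    have h0 : Measurable fun s : ℝ => (Icc (-1 : ℝ) 1).indicator
      (fun s => ENNReal.ofReal (max |s| a)⁻¹) s := by
      apply Measurable.indicator _ measurableSet_Icc
      fun_prop
    exact h0.comp (measurable_id.sub_const x₀)
  calc ∫⁻ x : ℝ, {x | |x - x₁| < r}.indicator (fun x => ENNReal.ofReal (max |x - x₀| a)⁻¹) x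
      ≤ ∫⁻ x : ℝ, ((Icc (-1 : ℝ) 1).indicator (fun s => ENNReal.ofReal (max |s| a)⁻¹) (x - x₀) +
          (Ioo (x₁ - r) (x₁ + r)).indicator (fun _ => (1 : ℝ≥0∞)) x) := by
        apply lintegral_mono
        intro x
        by_cases hx : x ∈ {x | |x - x₁| < r}
        · rw [indicator_of_mem hx]
          have hx' : x ∈ Ioo (x₁ - r) (x₁ + r) := by rw [← hset]; exact hx
          simp only
          rw [indicator_of_mem hx']
          by_cases h1 : x - x₀ ∈ Icc (-1:ℝ) 1
          · rw [indicator_of_mem h1]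
            exact le_self_add
          · rw [indicator_of_notMem h1, zero_add]
            have h2 : 1 ≤ |x - x₀| := by
              by_contra hlt
              rw [not_le] at hlt
              exact h1 ⟨(abs_lt.1 hlt).1.le, (abs_lt.1 hlt).2.le⟩
            have h3 : 1 ≤ max |x - x₀| a := h2.trans (le_max_left _ _)
            calc ENNReal.ofReal (max |x - x₀| a)⁻¹ ≤ ENNReal.ofReal 1 :=
                  ENNReal.ofReal_le_ofReal (inv_le_one_of_one_le₀ h3)
              _ = 1 := ENNReal.ofReal_one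
        · rw [indicator_of_notMem hx]; exact zero_le
    _ = (∫⁻ x : ℝ, (Icc (-1 : ℝ) 1).indicator (fun s => ENNReal.ofReal (max |s| a)⁻¹) (x - x₀)) +
          ∫⁻ x : ℝ, (Ioo (x₁ - r) (x₁ + r)).indicator (fun _ => (1 : ℝ≥0∞)) x :=
        lintegral_add_left hmeas _
    _ = (∫⁻ x : ℝ, (Icc (-1 : ℝ) 1).indicator (fun s => ENNReal.ofReal (max |s| a)⁻¹) x) +
          ENNReal.ofReal (2 * r) := by
        rw [lintegral_sub_right_eq_self
          (fun x => (Icc (-1 : ℝ) 1).indicator (fun s => ENNReal.ofReal (max |s| a)⁻¹) x) x₀,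
          lintegral_indicator measurableSet_Ioo, setLIntegral_const, Real.volume_Ioo, one_mul]
        congr 2; ring
    _ ≤ ENNReal.ofReal (4 + 4 * Real.log a⁻¹) + ENNReal.ofReal (2 * r) := by
        gcongr
        exact log_bound ha ha1
    _ = ENNReal.ofReal (4 + 4 * Real.log a⁻¹ + 2 * r) := by
        rw [← ENNReal.ofReal_add (by positivity) (by positivity)]

/-- The outer collar. -/
def collar (G : Set ℂ) (g : ℂ → ℂ) : Set ℂ := {w | w ∉ G ∧ infDist w (closure G) < ‖g w‖}

theorem measurableSet_collar {G : Set ℂ} (hG : IsOpen G) {g : ℂ → ℂ} (hg : Continuous g) :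
    MeasurableSet (collar G g) := by
  have h1 : MeasurableSet {w : ℂ | w ∉ G} := hG.measurableSet.compl
  have h2 : MeasurableSet {w : ℂ | infDist w (closure G) < ‖g w‖} :=
    (isOpen_lt (continuous_infDist_pt _) hg.norm).measurableSet
  exact h1.inter h2

theorem chart_integral {G : Set ℂ} (hGne : G.Nonempty) {g : ℂ → ℂ} {ε K : ℝ≥0} {ζ u : ℂ} {r : ℝ}
    {φ : ℝ → ℝ} (hu : ‖u‖ = 1) (hφ : LipschitzWith K φ) (hr : 0 < r)
    (hchart : ∀ z ∈ ball ζ r, (z ∈ G ↔ φ (u * z).re < (u * z).im))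
    (hg : LipschitzWith ε g) (hε : (ε : ℝ) * (K + 1) ≤ 1 / 2) (z : ℂ) {a : ℝ} (ha : 0 < a)
    (ha1 : a ≤ 1) :
    ∫⁻ w in collar G g ∩ ball ζ (r / 2) ∩ {w | ‖g w‖ ≤ r / 2} ∩ {w | a ≤ ‖z - w‖},
      ENNReal.ofReal (‖g w‖⁻¹ * ‖z - w‖⁻¹) ≤
      ENNReal.ofReal (3 * (K + 1) * (4 + 4 * Real.log a⁻¹ + 2 * (r / 2))) := by
  set x₁ := (u * ζ).re with hx₁
  set x₀ := (u * z).re with hx₀
  let T : Set ℂ := {w | |(u * w).re - x₁| < r / 2 ∧ (u * w).im ≤ φ (u * w).re ∧
    φ (u * w).re - (u * w).im ≤ (K + 1) * ‖g w‖}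
  have hφc := hφ.continuous
  have hgc := hg.continuous
  have hTm : MeasurableSet T := by
    have m1 : MeasurableSet {w : ℂ | |(u * w).re - x₁| < r / 2} :=
      (isOpen_lt (by fun_prop) continuous_const).measurableSet
    have m2 : MeasurableSet {w : ℂ | (u * w).im ≤ φ (u * w).re} :=
      (isClosed_le (by fun_prop) (by fun_prop)).measurableSet
    have m3 : MeasurableSet {w : ℂ | φ (u * w).re - (u * w).im ≤ (K + 1) * ‖g w‖} :=
      (isClosed_le (by fun_prop) (by fun_prop)).measurableSet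
    exact m1.inter (m2.inter m3)
  let F : ℂ → ℝ≥0∞ := T.indicator (fun w => ENNReal.ofReal (‖g w‖⁻¹) *
    ENNReal.ofReal (max |(u * w).re - x₀| a)⁻¹)
  have hFm : Measurable F := by
    apply Measurable.indicator _ hTm
    have m1 : Measurable fun w : ℂ => ENNReal.ofReal (‖g w‖⁻¹) :=
      (hgc.norm.measurable.inv).ennreal_ofReal
    have m2 : Measurable fun w : ℂ => ENNReal.ofReal (max |(u * w).re - x₀| a)⁻¹ := by
      apply Measurable.ennreal_ofReal
      apply Measurable.inv
      apply Measurable.max _ measurable_const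
      exact (by fun_prop : Continuous fun w : ℂ => |(u * w).re - x₀|).measurable
    exact m1.mul m2
  have hnorm : ∀ w : ℂ, ‖u * w‖ = ‖w‖ := fun w => by rw [norm_mul, hu, one_mul]
  have hsub : ∀ w ∈ collar G g ∩ ball ζ (r / 2) ∩ {w | ‖g w‖ ≤ r / 2} ∩ {w | a ≤ ‖z - w‖},
      ENNReal.ofReal (‖g w‖⁻¹ * ‖z - w‖⁻¹) ≤ F w := by
    rintro w ⟨⟨⟨⟨hwG, hwd⟩, hwb⟩, hgw⟩, hza⟩
    have hgw : ‖g w‖ ≤ r / 2 := hgw
    have hza : a ≤ ‖z - w‖ := hza
    have hwb' : w ∈ ball ζ r := ball_subset_ball (by linarith) hwb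
    obtain ⟨w₀, hw₀, hdist⟩ := (infDist_lt_iff (hGne.closure)).1 hwd
    have hw₀b : w₀ ∈ ball ζ r := by
      rw [mem_ball] at hwb ⊢
      calc dist w₀ ζ ≤ dist w₀ w + dist w ζ := dist_triangle _ _ _
        _ < r / 2 + r / 2 := by rw [dist_comm w₀ w]; linarith
        _ = r := by ring
    have hw₀G : φ (u * w₀).re ≤ (u * w₀).im := by
      by_contra hcon
      rw [not_le] at hcon
      have hopen : IsOpen {p : ℂ | (u * p).im < φ (u * p).re} :=
        isOpen_lt (by fun_prop) (by fun_prop)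
      have hmem : {p : ℂ | (u * p).im < φ (u * p).re} ∩ ball ζ r ∈ 𝓝 w₀ :=
        inter_mem (hopen.mem_nhds hcon) (isOpen_ball.mem_nhds hw₀b)
      obtain ⟨p, ⟨hp1, hp2⟩, hp3⟩ := mem_closure_iff_nhds.1 hw₀ _ hmem
      have := (hchart p hp2).1 hp3
      have hp1 : (u * p).im < φ (u * p).re := hp1
      linarith
    have hwG' : (u * w).im ≤ φ (u * w).re := by
      by_contra hcon
      rw [not_le] at hcon
      exact hwG ((hchart w hwb').2 hcon)
    have hd1 : |(u * w).re - (u * w₀).re| ≤ dist w w₀ := by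
      rw [← Complex.sub_re, ← mul_sub, dist_eq_norm, ← hnorm]
      exact Complex.abs_re_le_norm _
    have hd2 : |(u * w).im - (u * w₀).im| ≤ dist w w₀ := by
      rw [← Complex.sub_im, ← mul_sub, dist_eq_norm, ← hnorm]
      exact Complex.abs_im_le_norm _
    have hd3 : |φ (u * w).re - φ (u * w₀).re| ≤ K * dist w w₀ := by
      have := hφ.norm_sub_le (u * w).re (u * w₀).re
      rw [Real.norm_eq_abs, Real.norm_eq_abs] at this
      refine this.trans ?_
      gcongr
    have hTw : w ∈ T := by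
      refine ⟨?_, hwG', ?_⟩
      · have h1 : |(u * w).re - x₁| ≤ dist w ζ := by
          rw [hx₁, ← Complex.sub_re, ← mul_sub, dist_eq_norm, ← hnorm]
          exact Complex.abs_re_le_norm _
        exact lt_of_le_of_lt h1 hwb
      · have h1 := (abs_le.1 hd3).2
        have h2 := (abs_le.1 hd2).1
        have h3 : (K : ℝ) * dist w w₀ ≤ K * ‖g w‖ := by gcongr
        nlinarith [hdist.le]
    simp only [F]
    rw [indicator_of_mem hTw, ← ENNReal.ofReal_mul (by positivity)]
    apply ENNReal.ofReal_le_ofReal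
    apply mul_le_mul_of_nonneg_left _ (by positivity)
    apply inv_anti₀ (lt_max_of_lt_right ha)
    apply max_le _ hza
    rw [hx₀, ← Complex.sub_re, ← mul_sub, norm_sub_rev, ← hnorm]
    exact Complex.abs_re_le_norm _
  calc ∫⁻ w in collar G g ∩ ball ζ (r / 2) ∩ {w | ‖g w‖ ≤ r / 2} ∩ {w | a ≤ ‖z - w‖},
      ENNReal.ofReal (‖g w‖⁻¹ * ‖z - w‖⁻¹)
      ≤ ∫⁻ w in collar G g ∩ ball ζ (r / 2) ∩ {w | ‖g w‖ ≤ r / 2} ∩ {w | a ≤ ‖z - w‖}, F w :=
        setLIntegral_mono hFm hsub
    _ ≤ ∫⁻ w, F w := setLIntegral_le_lintegral _ _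
    _ = ∫⁻ x : ℝ, ∫⁻ y : ℝ, F ((starRingEnd ℂ u) * (⟨x, y⟩ : ℂ)) := lintegral_chart hu F hFm
    _ ≤ ∫⁻ x : ℝ, {x | |x - x₁| < r / 2}.indicator (fun x => ENNReal.ofReal (max |x - x₀| a)⁻¹) x *
          ENNReal.ofReal (3 * (K + 1)) := by
        apply lintegral_mono
        intro x
        have e : ∀ y : ℝ, F ((starRingEnd ℂ u) * (⟨x, y⟩ : ℂ)) =
            {x | |x - x₁| < r / 2}.indicator (fun x => ENNReal.ofReal (max |x - x₀| a)⁻¹) x *
            {y | y ≤ φ x ∧ φ x - y ≤ (K + 1) * ‖g ((starRingEnd ℂ u) * (⟨x, y⟩ : ℂ))‖}.indicator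
              (fun y => ENNReal.ofReal (‖g ((starRingEnd ℂ u) * (⟨x, y⟩ : ℂ))‖)⁻¹) y := by
          intro y
          simp only [F, T]
          by_cases h1 : x ∈ {x | |x - x₁| < r / 2}
          · by_cases h2 : y ∈ {y | y ≤ φ x ∧ φ x - y ≤ (K + 1) * ‖g ((starRingEnd ℂ u) * (⟨x, y⟩ : ℂ))‖}
            · rw [indicator_of_mem h1, indicator_of_mem h2, indicator_of_mem]
              · rw [unit_mul_conj hu, mul_comm]
              · simp only [mem_setOf_eq]
                rw [unit_mul_conj hu]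
                exact ⟨h1, h2⟩
            · rw [indicator_of_notMem h2, mul_zero, indicator_of_notMem]
              simp only [mem_setOf_eq]
              rw [unit_mul_conj hu]
              rintro ⟨_, h3⟩
              exact h2 h3
          · rw [indicator_of_notMem h1, zero_mul, indicator_of_notMem]
            simp only [mem_setOf_eq]
            rw [unit_mul_conj hu]
            rintro ⟨h3, _⟩
            exact h1 h3
        simp_rw [e]
        rw [lintegral_const_mul']
        · gcongr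
          refine slice_bound (b := fun y => ‖g ((starRingEnd ℂ u) * (⟨x, y⟩ : ℂ))‖)
            (fun y => norm_nonneg _) ε.2 (by positivity) ?_ hε
          intro y y'
          refine (abs_norm_sub_norm_le _ _).trans ?_
          refine (hg.norm_sub_le _ _).trans ?_
          have : ‖(starRingEnd ℂ u) * (⟨x, y⟩ : ℂ) - (starRingEnd ℂ u) * (⟨x, y'⟩ : ℂ)‖ = |y - y'| := by
            rw [← mul_sub, norm_mul, RCLike.norm_conj, hu, one_mul]
            have : (⟨x, y⟩ : ℂ) - ⟨x, y'⟩ = ((y - y' : ℝ) : ℂ) * Complex.I := by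
              apply Complex.ext <;> simp
            rw [this, norm_mul, Complex.norm_I, mul_one, Complex.norm_real, Real.norm_eq_abs]
          rw [this]
          rfl
        · by_cases h1 : x ∈ {x | |x - x₁| < r / 2}
          · rw [indicator_of_mem h1]; exact ENNReal.ofReal_ne_top
          · rw [indicator_of_notMem h1]; exact ENNReal.zero_ne_top
    _ = (∫⁻ x : ℝ, {x | |x - x₁| < r / 2}.indicator (fun x => ENNReal.ofReal (max |x - x₀| a)⁻¹) x) *
          ENNReal.ofReal (3 * (K + 1)) := by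
        rw [lintegral_mul_const' _ _ ENNReal.ofReal_ne_top]
    _ ≤ ENNReal.ofReal (4 + 4 * Real.log a⁻¹ + 2 * (r / 2)) * ENNReal.ofReal (3 * (K + 1)) := by
        gcongr
        exact line_bound ha ha1 (by positivity) x₀ x₁
    _ = ENNReal.ofReal (3 * (K + 1) * (4 + 4 * Real.log a⁻¹ + 2 * (r / 2))) := by
        rw [mul_comm, ← ENNReal.ofReal_mul (by positivity)]

end Pool.Agent.Helper19.ZS
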