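import Mathlib
import Pool.Agent.Helper19.ZS.Geom

/-!
Bounded Lipschitz domains and the global collar estimate.
-/

open MeasureTheory Filter Topology Metric Set
open scoped NNReal ENNReal Pointwise

namespace Pool.Agent.Helper19.ZS

/-- Bounded Lipschitz domain: a bounded connected open set which, near each boundary point and
after a rotation `z ↦ u * z` (with `‖u‖ = 1`), is the region above the graph of a Lipschitz
function. -/
structure IsBoundedLipschitzDomain (G : Set ℂ) : Prop where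
  isOpen : IsOpen G
  isConnected : IsConnected G
  isBounded : Bornology.IsBounded G
  chart : ∀ ζ ∈ frontier G, ∃ r : ℝ, 0 < r ∧ ∃ u : ℂ, ‖u‖ = 1 ∧ ∃ (K : ℝ≥0) (φ : ℝ → ℝ),
    LipschitzWith K φ ∧ ∀ z ∈ ball ζ r, (z ∈ G ↔ φ (u * z).re < (u * z).im)

theorem near_bound : ∃ C₁ : ℝ, 0 ≤ C₁ ∧ ∀ (z : ℂ) (a : ℝ), 0 < a →
    ∫⁻ w in ball z a, ENNReal.ofReal (‖z - w‖⁻¹) ≤ ENNReal.ofReal (C₁ * a) := by
  refine ⟨∫ w in ball (0 : ℂ) 1, ‖w‖⁻¹, integral_nonneg fun w => by positivity, ?_⟩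
  intro z a ha
  have hloc : ∀ z : ℂ, IntegrableOn (fun w : ℂ => ‖z - w‖⁻¹) (ball z a) := by
    intro z
    have h1 := ((locInt_kernel z).integrableOn_isCompact (isCompact_closedBall z a)).norm
    have h2 : IntegrableOn (fun w : ℂ => ‖z - w‖⁻¹) (closedBall z a) := by
      simp only [norm_inv] at h1
      exact h1
    exact h2.mono_set ball_subset_closedBall
  rw [← ofReal_integral_eq_lintegral_ofReal (hloc z) (Eventually.of_forall fun w => by positivity)]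
  apply ENNReal.ofReal_le_ofReal
  apply le_of_eq
  -- translate
  have h1 : ∫ w in ball z a, ‖z - w‖⁻¹ = ∫ w in ball (0:ℂ) a, ‖w‖⁻¹ := by
    rw [← integral_indicator measurableSet_ball, ← integral_indicator measurableSet_ball,
      ← integral_sub_left_eq_self (fun w => (ball (0:ℂ) a).indicator (fun w => ‖w‖⁻¹) w) volume z]
    congr 1
    ext w
    by_cases hw : w ∈ ball z a
    · rw [indicator_of_mem hw, indicator_of_mem]
      rw [mem_ball, dist_zero_right]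
      rw [mem_ball, dist_eq_norm, norm_sub_rev] at hw
      exact hw
    · rw [indicator_of_notMem hw, indicator_of_notMem]
      rw [mem_ball, dist_zero_right]
      rw [mem_ball, dist_eq_norm, norm_sub_rev] at hw
      exact hw
  rw [h1]
  have h2 := Measure.setIntegral_comp_smul (μ := (volume : Measure ℂ)) (fun w : ℂ => ‖w‖⁻¹)
    (ball (0:ℂ) 1) ha.ne'
  have h3 : a • ball (0:ℂ) 1 = ball (0:ℂ) a := by
    rw [smul_unitBall ha.ne', Real.norm_of_nonneg ha.le]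
  rw [h3, Complex.finrank_real_complex] at h2
  have h4 : ∫ w in ball (0:ℂ) 1, ‖a • w‖⁻¹ = a⁻¹ * ∫ w in ball (0:ℂ) 1, ‖w‖⁻¹ := by
    rw [← integral_const_mul]
    congr 1
    ext w
    rw [norm_smul, Real.norm_of_nonneg ha.le, mul_inv]
  rw [h4, abs_of_pos (by positivity), smul_eq_mul] at h2
  generalize (∫ w in ball (0:ℂ) 1, ‖w‖⁻¹) = I₁ at *
  generalize (∫ w in ball (0:ℂ) a, ‖w‖⁻¹) = I₂ at *
  have h5 : a⁻¹ * I₁ * a ^ 2 = (a ^ 2)⁻¹ * I₂ * a ^ 2 := by rw [h2]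
  have h6 : a⁻¹ * I₁ * a ^ 2 = I₁ * a := by field_simp
  have h7 : (a ^ 2)⁻¹ * I₂ * a ^ 2 = I₂ := by field_simp
  rw [← h7, ← h5, h6]

theorem collar_integral {G : Set ℂ} (hG : IsBoundedLipschitzDomain G) :
    ∃ A : ℝ, 0 < A ∧ ∃ ε₀ : ℝ, 0 < ε₀ ∧ ε₀ ≤ 1 / 2 ∧ ∃ β₀ : ℝ, 0 < β₀ ∧ β₀ ≤ 1 / 2 ∧
      ∀ (g : ℂ → ℂ) (ε : ℝ≥0),
      LipschitzWith ε g → (ε : ℝ) ≤ ε₀ → (∀ z ∈ closure G, ‖g z‖ ≤ β₀) →
      ∀ z, 0 < ‖g z‖ → ‖g z‖ ≤ 1 →
        ∫⁻ w in collar G g, ENNReal.ofReal (‖g w‖⁻¹ * ‖z - w‖⁻¹) ≤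
          ENNReal.ofReal (A * (1 + Real.log (‖g z‖⁻¹))) := by
  have hne : G.Nonempty := hG.isConnected.nonempty
  have hcomp : IsCompact (closure G) := hG.isBounded.isCompact_closure
  have hfr : IsCompact (frontier G) :=
    hcomp.of_isClosed_subset isClosed_frontier frontier_subset_closure
  choose! r hr u hu K φ hφ hchart using hG.chart
  obtain ⟨t, htf, htcov⟩ := hfr.elim_nhds_subcover (fun ζ => ball ζ (r ζ / 2))
    (fun ζ hζ => ball_mem_nhds _ (by have := hr ζ hζ; positivity))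
  obtain ⟨C₁, hC₁, hnear⟩ := near_bound
  -- thickening
  have hopen : IsOpen (G ∪ ⋃ ζ ∈ t, ball ζ (r ζ / 2)) :=
    hG.isOpen.union (isOpen_biUnion fun _ _ => isOpen_ball)
  have hsub : closure G ⊆ G ∪ ⋃ ζ ∈ t, ball ζ (r ζ / 2) := by
    intro z hz
    by_cases hzG : z ∈ G
    · exact Or.inl hzG
    · right
      apply htcov
      rw [frontier, hG.isOpen.interior_eq]
      exact ⟨hz, hzG⟩
  obtain ⟨δ, hδ, hthick⟩ := hcomp.exists_thickening_subset_open hopen hsub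
  -- small parameters
  obtain ⟨β₀, ⟨hβ1, hβ2, hβ3⟩, hβ₀⟩ : ∃ β₀ : ℝ, ((∀ ζ ∈ t, 2 * β₀ ≤ r ζ / 2) ∧ 2 * β₀ < δ ∧ β₀ ≤ 1 / 2) ∧ 0 < β₀ := by
    have h1 : ∀ᶠ β : ℝ in 𝓝[>] 0, ∀ ζ ∈ t, 2 * β ≤ r ζ / 2 := by
      rw [Filter.eventually_all_finset]
      intro ζ hζ
      have hrp := hr ζ (htf ζ hζ)
      filter_upwards [Ioc_mem_nhdsGT (show (0:ℝ) < r ζ / 4 by positivity)] with β hβ
      linarith [hβ.2]
    have h2 : ∀ᶠ β : ℝ in 𝓝[>] 0, 2 * β < δ := by
      filter_upwards [Ioo_mem_nhdsGT (show (0:ℝ) < δ / 2 by positivity)] with β hβ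
      linarith [hβ.2]
    have h3 : ∀ᶠ β : ℝ in 𝓝[>] 0, β ≤ 1 / 2 := by
      filter_upwards [Ioc_mem_nhdsGT (show (0:ℝ) < 1 / 2 by positivity)] with β hβ
      exact hβ.2
    obtain ⟨β, hβ⟩ := ((h1.and (h2.and h3)).and self_mem_nhdsWithin).exists
    exact ⟨β, hβ.1, hβ.2⟩
  obtain ⟨ε₀, ⟨hε1, hε2⟩, hε₀⟩ : ∃ ε₀ : ℝ, ((∀ ζ ∈ t, ε₀ * ((K ζ : ℝ) + 1) ≤ 1 / 2) ∧ ε₀ ≤ 1 / 2) ∧ 0 < ε₀ := by
    have h1 : ∀ᶠ β : ℝ in 𝓝[>] 0, ∀ ζ ∈ t, β * ((K ζ : ℝ) + 1) ≤ 1 / 2 := by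
      rw [Filter.eventually_all_finset]
      intro ζ hζ
      have hK : (0:ℝ) < (K ζ : ℝ) + 1 := by positivity
      filter_upwards [Ioc_mem_nhdsGT (show (0:ℝ) < 1 / 2 / ((K ζ : ℝ) + 1) by positivity)] with β hβ
      rw [← le_div_iff₀ hK]
      exact hβ.2
    have h3 : ∀ᶠ β : ℝ in 𝓝[>] 0, β ≤ 1 / 2 := by
      filter_upwards [Ioc_mem_nhdsGT (show (0:ℝ) < 1 / 2 by positivity)] with β hβ
      exact hβ.2
    obtain ⟨β, hβ⟩ := ((h1.and h3).and self_mem_nhdsWithin).exists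
    exact ⟨β, hβ.1, hβ.2⟩
  set A : ℝ := C₁ + 1 + ∑ ζ ∈ t, 3 * ((K ζ : ℝ) + 1) * (4 + 4 * Real.log 2 + 4 + r ζ) with hA
  have hterm : ∀ ζ ∈ t, 0 ≤ 3 * ((K ζ : ℝ) + 1) * (4 + 4 * Real.log 2 + 4 + r ζ) := by
    intro ζ hζ
    have hrp := hr ζ (htf ζ hζ)
    have := Real.log_nonneg (show (1:ℝ) ≤ 2 by norm_num)
    positivity
  have hsum := Finset.sum_nonneg hterm
  refine ⟨A, by positivity, ε₀, hε₀, hε2, β₀, hβ₀, hβ3, ?_⟩
  intro g ε hg hεε hgβ z hz0 hz1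
  set a : ℝ := ‖g z‖ / 2 with ha_def
  have ha : 0 < a := by positivity
  have ha1 : a ≤ 1 := by rw [ha_def]; linarith
  have hlogz : 0 ≤ Real.log (‖g z‖⁻¹) := Real.log_nonneg (one_le_inv_iff₀.2 ⟨hz0, hz1⟩)
  have hloga : Real.log a⁻¹ = Real.log 2 + Real.log (‖g z‖⁻¹) := by
    rw [← Real.log_mul (by norm_num) (by positivity)]
    congr 1
    rw [ha_def, inv_div]
    ring
  -- bound of g on the collar
  have hcollar : ∀ w ∈ collar G g, ‖g w‖ ≤ 2 * β₀ ∧ w ∈ ⋃ ζ ∈ t, ball ζ (r ζ / 2) := by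
    rintro w ⟨hwG, hwd⟩
    obtain ⟨w₀, hw₀, hdist⟩ := (infDist_lt_iff hne.closure).1 hwd
    have h1 : ‖g w‖ ≤ ‖g w₀‖ + ε * dist w w₀ := by
      have := hg.norm_sub_le w w₀
      have h2 := norm_le_norm_add_norm_sub' (g w) (g w₀)
      rw [dist_eq_norm]
      linarith
    have h2 := hgβ w₀ hw₀
    have h3 : (ε : ℝ) * dist w w₀ ≤ 1 / 2 * ‖g w‖ := by
      apply mul_le_mul (hεε.trans hε2) hdist.le dist_nonneg (by norm_num)
    have h4 : ‖g w‖ ≤ 2 * β₀ := by linarith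
    refine ⟨h4, ?_⟩
    have h5 : w ∈ thickening δ (closure G) := by
      rw [mem_thickening_iff]
      exact ⟨w₀, hw₀, by linarith⟩
    rcases hthick h5 with h6 | h6
    · exact absurd h6 hwG
    · exact h6
  have hgc := hg.continuous
  have hfm : Measurable fun w => ENNReal.ofReal (‖g w‖⁻¹ * ‖z - w‖⁻¹) := by
    apply Measurable.ennreal_ofReal
    have m1 : Measurable fun w => ‖g w‖⁻¹ := hgc.norm.measurable.inv
    have m2 : Measurable fun w => ‖z - w‖⁻¹ := (by fun_prop : Continuous fun w => ‖z - w‖).measurable.inv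
    exact m1.mul m2
  have hcm : MeasurableSet (collar G g) := measurableSet_collar hG.isOpen hgc
  let S : ℂ → Set ℂ := fun ζ => collar G g ∩ ball ζ (r ζ / 2) ∩ {w | ‖g w‖ ≤ r ζ / 2} ∩ {w | a ≤ ‖z - w‖}
  have hSm : ∀ ζ, MeasurableSet (S ζ) := by
    intro ζ
    have m1 : MeasurableSet {w | ‖g w‖ ≤ r ζ / 2} := (isClosed_le hgc.norm continuous_const).measurableSet
    have m2 : MeasurableSet {w : ℂ | a ≤ ‖z - w‖} :=
      (isClosed_le continuous_const (by fun_prop)).measurableSet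
    exact ((hcm.inter measurableSet_ball).inter m1).inter m2
  have hnb : ∫⁻ w in ball z a, ENNReal.ofReal (‖g w‖⁻¹ * ‖z - w‖⁻¹) ≤ ENNReal.ofReal C₁ := by
    calc ∫⁻ w in ball z a, ENNReal.ofReal (‖g w‖⁻¹ * ‖z - w‖⁻¹)
        ≤ ∫⁻ w in ball z a, ENNReal.ofReal a⁻¹ * ENNReal.ofReal (‖z - w‖⁻¹) := by
          apply setLIntegral_mono' measurableSet_ball
          intro w hw
          rw [← ENNReal.ofReal_mul (by positivity)]
          apply ENNReal.ofReal_le_ofReal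
          apply mul_le_mul_of_nonneg_right _ (by positivity)
          apply inv_anti₀ ha
          have h1 := hg.norm_sub_le z w
          have h2 := norm_le_norm_add_norm_sub' (g z) (g w)
          rw [mem_ball, dist_comm, dist_eq_norm] at hw
          have h3 : (ε : ℝ) * ‖z - w‖ ≤ 1 * a := by
            apply mul_le_mul (by linarith) hw.le (norm_nonneg _) zero_le_one
          have : ‖g z‖ = 2 * a := by rw [ha_def]; ring
          linarith
      _ = ENNReal.ofReal a⁻¹ * ∫⁻ w in ball z a, ENNReal.ofReal (‖z - w‖⁻¹) := by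
          rw [lintegral_const_mul' _ _ ENNReal.ofReal_ne_top]
      _ ≤ ENNReal.ofReal a⁻¹ * ENNReal.ofReal (C₁ * a) := by gcongr; exact hnear z a ha
      _ = ENNReal.ofReal C₁ := by
          rw [← ENNReal.ofReal_mul (by positivity)]
          congr 1
          field_simp
  have hfar : ∀ ζ ∈ t, ∫⁻ w in S ζ, ENNReal.ofReal (‖g w‖⁻¹ * ‖z - w‖⁻¹) ≤
      ENNReal.ofReal (3 * ((K ζ : ℝ) + 1) * (4 + 4 * Real.log 2 + 4 + r ζ) * (1 + Real.log (‖g z‖⁻¹))) := by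
    intro ζ hζ
    have hζf := htf ζ hζ
    have hrp := hr ζ hζf
    have h1 := chart_integral hne (hu ζ hζf) (hφ ζ hζf) hrp (hchart ζ hζf) hg
      ((mul_le_mul_of_nonneg_right hεε (by positivity)).trans (hε1 ζ hζ)) z ha ha1
    refine h1.trans (ENNReal.ofReal_le_ofReal ?_)
    rw [hloga, mul_assoc (3 * ((K ζ : ℝ) + 1))]
    apply mul_le_mul_of_nonneg_left _ (by positivity)
    have hl2 := Real.log_nonneg (show (1:ℝ) ≤ 2 by norm_num)
    nlinarith [mul_nonneg hl2 hlogz, mul_nonneg hrp.le hlogz]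
  calc ∫⁻ w in collar G g, ENNReal.ofReal (‖g w‖⁻¹ * ‖z - w‖⁻¹)
      = ∫⁻ w, (collar G g).indicator (fun w => ENNReal.ofReal (‖g w‖⁻¹ * ‖z - w‖⁻¹)) w :=
        (lintegral_indicator hcm _).symm
    _ ≤ ∫⁻ w, ((ball z a).indicator (fun w => ENNReal.ofReal (‖g w‖⁻¹ * ‖z - w‖⁻¹)) w +
          ∑ ζ ∈ t, (S ζ).indicator (fun w => ENNReal.ofReal (‖g w‖⁻¹ * ‖z - w‖⁻¹)) w) := by
        apply lintegral_mono
        intro w
        by_cases hw : w ∈ collar G g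
        · simp only
          rw [indicator_of_mem hw]
          by_cases hwa : w ∈ ball z a
          · rw [indicator_of_mem hwa]; exact le_self_add
          · obtain ⟨hgw, hwU⟩ := hcollar w hw
            simp only [mem_iUnion] at hwU
            obtain ⟨ζ, hζ, hwζ⟩ := hwU
            have hwS : w ∈ S ζ := by
              refine ⟨⟨⟨hw, hwζ⟩, hgw.trans (hβ1 ζ hζ)⟩, ?_⟩
              rw [mem_ball, not_lt, dist_comm, dist_eq_norm] at hwa
              exact hwa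
            rw [indicator_of_notMem hwa, zero_add]
            calc ENNReal.ofReal (‖g w‖⁻¹ * ‖z - w‖⁻¹)
                = (S ζ).indicator (fun w => ENNReal.ofReal (‖g w‖⁻¹ * ‖z - w‖⁻¹)) w := by
                  rw [indicator_of_mem hwS]
              _ ≤ _ := Finset.single_le_sum
                  (f := fun ζ => (S ζ).indicator (fun w => ENNReal.ofReal (‖g w‖⁻¹ * ‖z - w‖⁻¹)) w)
                  (fun _ _ => zero_le) hζ
        · simp only
          rw [indicator_of_notMem hw]; exact zero_le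
    _ = (∫⁻ w, (ball z a).indicator (fun w => ENNReal.ofReal (‖g w‖⁻¹ * ‖z - w‖⁻¹)) w) +
          ∑ ζ ∈ t, ∫⁻ w, (S ζ).indicator (fun w => ENNReal.ofReal (‖g w‖⁻¹ * ‖z - w‖⁻¹)) w := by
        rw [lintegral_add_left (hfm.indicator measurableSet_ball)]
        congr 1
        rw [lintegral_finsetSum]
        intro ζ _
        exact hfm.indicator (hSm ζ)
    _ = (∫⁻ w in ball z a, ENNReal.ofReal (‖g w‖⁻¹ * ‖z - w‖⁻¹)) +
          ∑ ζ ∈ t, ∫⁻ w in S ζ, ENNReal.ofReal (‖g w‖⁻¹ * ‖z - w‖⁻¹) := by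
        rw [lintegral_indicator measurableSet_ball]
        congr 1
        apply Finset.sum_congr rfl
        intro ζ _
        rw [lintegral_indicator (hSm ζ)]
    _ ≤ ENNReal.ofReal C₁ + ∑ ζ ∈ t, ENNReal.ofReal
          (3 * ((K ζ : ℝ) + 1) * (4 + 4 * Real.log 2 + 4 + r ζ) * (1 + Real.log (‖g z‖⁻¹))) :=
        add_le_add hnb (Finset.sum_le_sum hfar)
    _ = ENNReal.ofReal (C₁ + ∑ ζ ∈ t,
          (3 * ((K ζ : ℝ) + 1) * (4 + 4 * Real.log 2 + 4 + r ζ) * (1 + Real.log (‖g z‖⁻¹)))) := by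
        rw [← ENNReal.ofReal_sum_of_nonneg, ← ENNReal.ofReal_add hC₁]
        · apply Finset.sum_nonneg
          intro ζ hζ
          exact mul_nonneg (hterm ζ hζ) (by positivity)
        · intro ζ hζ
          exact mul_nonneg (hterm ζ hζ) (by positivity)
    _ ≤ ENNReal.ofReal (A * (1 + Real.log (‖g z‖⁻¹))) := by
        apply ENNReal.ofReal_le_ofReal
        rw [← Finset.sum_mul, hA]
        nlinarith [mul_nonneg hC₁ hlogz]

end Pool.Agent.Helper19.ZS
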