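import Mathlib
import Pool.Agent.Helper19.ZS.Domain

/-!
Functions with bounded derivative on a bounded Lipschitz domain are Lipschitz on the closure.
-/

open MeasureTheory Filter Topology Metric Set
open scoped NNReal ENNReal Pointwise

namespace Pool.Agent.Helper19.ZS

theorem seg_bound {f : ℂ → ℂ} {G : Set ℂ} (hG : IsOpen G) (hf : DifferentiableOn ℂ f G) {B : ℝ}
    (hB : ∀ z ∈ G, ‖deriv f z‖ ≤ B) {p q : ℂ} (hseg : segment ℝ p q ⊆ G) :
    ‖f q - f p‖ ≤ B * ‖q - p‖ :=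
  (convex_segment p q).norm_image_sub_le_of_norm_deriv_le
    (fun _ hx => hf.differentiableAt (hG.mem_nhds (hseg hx))) (fun x hx => hB x (hseg hx))
    (left_mem_segment ℝ p q) (right_mem_segment ℝ p q)

theorem chart_paths {G : Set ℂ} {ζ u : ℂ} {r : ℝ} {K : ℝ≥0} {φ : ℝ → ℝ} (hu : ‖u‖ = 1)
    (hφ : LipschitzWith K φ) (hr : 0 < r)
    (hchart : ∀ z ∈ ball ζ r, (z ∈ G ↔ φ (u * z).re < (u * z).im)) :
    ∃ ρ : ℝ, 0 < ρ ∧ ∀ z ∈ G ∩ ball ζ ρ, ∀ w ∈ G ∩ ball ζ ρ, ∃ p q : ℂ,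
      segment ℝ z p ⊆ G ∧ segment ℝ p q ⊆ G ∧ segment ℝ q w ⊆ G ∧
      ‖p - z‖ ≤ K * ‖z - w‖ ∧ ‖q - p‖ ≤ ‖z - w‖ ∧ ‖w - q‖ ≤ K * ‖z - w‖ := by
  have hnorm : ∀ w : ℂ, ‖u * w‖ = ‖w‖ := fun w => by rw [norm_mul, hu, one_mul]
  have hK : (0:ℝ) < 1 + 2 * K := by positivity
  refine ⟨r / (1 + 2 * K), by positivity, ?_⟩
  rintro z ⟨hzG, hzb⟩ w ⟨hwG, hwb⟩
  rw [mem_ball, lt_div_iff₀ hK] at hzb hwb
  have hρr : ∀ x : ℂ, dist x ζ * (1 + 2 * K) < r → x ∈ ball ζ r := by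
    intro x hx
    rw [mem_ball]
    have h1 : dist x ζ * 1 ≤ dist x ζ * (1 + 2 * K) := by
      apply mul_le_mul_of_nonneg_left _ dist_nonneg
      have := K.2; linarith
    linarith
  have hzr := hρr z hzb
  have hwr := hρr w hwb
  have hz1 := (hchart z hzr).1 hzG
  have hw1 := (hchart w hwr).1 hwG
  set t : ℝ := K * ‖z - w‖ with ht
  have ht0 : 0 ≤ t := by positivity
  set τ : ℂ := starRingEnd ℂ u * ((t : ℂ) * Complex.I) with hτ
  have huτ : u * τ = (t : ℂ) * Complex.I := unit_mul_conj hu _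
  have hτn : ‖τ‖ = t := by
    rw [← hnorm τ, huτ, norm_mul, Complex.norm_I, mul_one, Complex.norm_real,
      Real.norm_of_nonneg ht0]
  have hzw : ‖z - w‖ ≤ dist z ζ + dist w ζ := by
    rw [← dist_eq_norm]; exact dist_triangle_right _ _ _
  -- the translated points are in the ball
  have hpb : ∀ x : ℂ, x = z ∨ x = w → x + τ ∈ ball ζ r := by
    intro x hx
    rw [mem_ball, dist_eq_norm]
    have h1 : ‖x + τ - ζ‖ ≤ dist x ζ + t := by
      rw [add_sub_right_comm, dist_eq_norm, ← hτn]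
      exact norm_add_le _ _
    have h2 : t ≤ K * (dist z ζ + dist w ζ) := by rw [ht]; gcongr
    have hm : max (dist z ζ) (dist w ζ) * (1 + 2 * K) < r := by
      rcases max_choice (dist z ζ) (dist w ζ) with h | h <;> rw [h] <;> assumption
    have h3 := le_max_left (dist z ζ) (dist w ζ)
    have h4 := le_max_right (dist z ζ) (dist w ζ)
    have h5 : dist x ζ ≤ max (dist z ζ) (dist w ζ) := by
      rcases hx with rfl | rfl
      · exact h3
      · exact h4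
    have h6 : (K : ℝ) * (dist z ζ + dist w ζ) ≤ K * (2 * max (dist z ζ) (dist w ζ)) := by
      gcongr; linarith
    calc ‖x + τ - ζ‖ ≤ dist x ζ + t := h1
      _ ≤ max (dist z ζ) (dist w ζ) + K * (2 * max (dist z ζ) (dist w ζ)) := by linarith
      _ = max (dist z ζ) (dist w ζ) * (1 + 2 * K) := by ring
      _ < r := hm
  have hvert : ∀ x : ℂ, (x = z ∨ x = w) → segment ℝ x (x + τ) ⊆ G := by
    intro x hx y hy
    have hxr : x ∈ ball ζ r := by rcases hx with rfl | rfl <;> assumption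
    have hyb : y ∈ ball ζ r := (convex_ball ζ r).segment_subset hxr (hpb x hx) hy
    rw [hchart y hyb]
    rw [segment_eq_image'] at hy
    obtain ⟨s, ⟨hs0, hs1⟩, rfl⟩ := hy
    have e : u * (x + s • (x + τ - x)) = u * x + ((s * t : ℝ) : ℂ) * Complex.I := by
      rw [add_sub_cancel_left, Complex.real_smul, mul_add]
      have : u * ((s : ℂ) * τ) = (s : ℂ) * (u * τ) := by ring
      rw [this, huτ]; push_cast; ring
    simp only
    rw [e]
    have hx1 : φ (u * x).re < (u * x).im := by rcases hx with rfl | rfl <;> assumption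
    generalize u * x = X at hx1 ⊢
    simp only [Complex.add_re, Complex.mul_re, Complex.ofReal_re, Complex.I_re, mul_zero,
      Complex.ofReal_im, Complex.I_im, mul_one, sub_self, add_zero, Complex.add_im, Complex.mul_im]
    have : 0 ≤ s * t := mul_nonneg hs0 ht0
    linarith
  refine ⟨z + τ, w + τ, hvert z (Or.inl rfl), ?_, ?_, ?_, ?_, ?_⟩
  · -- middle segment
    intro y hy
    have hyb : y ∈ ball ζ r :=
      (convex_ball ζ r).segment_subset (hpb z (Or.inl rfl)) (hpb w (Or.inr rfl)) hy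
    rw [hchart y hyb]
    rw [segment_eq_image'] at hy
    obtain ⟨s, ⟨hs0, hs1⟩, rfl⟩ := hy
    simp only
    set x₁ := (u * z).re with hx₁
    set y₁ := (u * z).im with hy₁
    set x₂ := (u * w).re with hx₂
    set y₂ := (u * w).im with hy₂
    have e : u * (z + τ + s • (w + τ - (z + τ))) =
        u * z + (s : ℂ) * (u * w - u * z) + (t : ℂ) * Complex.I := by
      rw [Complex.real_smul, ← huτ]; ring
    have ere : (u * (z + τ + s • (w + τ - (z + τ)))).re = x₁ + s * (x₂ - x₁) := by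
      rw [e]
      simp only [Complex.add_re, Complex.mul_re, Complex.ofReal_re, Complex.I_re, mul_zero,
        Complex.ofReal_im, Complex.I_im, mul_one, sub_self, add_zero, Complex.sub_re, Complex.sub_im,
        hx₁, hx₂]
      ring
    have eim : (u * (z + τ + s • (w + τ - (z + τ)))).im = y₁ + s * (y₂ - y₁) + t := by
      rw [e]
      simp only [Complex.add_im, Complex.mul_im, Complex.ofReal_re, Complex.I_re, mul_zero,
        Complex.ofReal_im, Complex.I_im, mul_one, add_zero, Complex.sub_re, Complex.sub_im,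
        hy₁, hy₂]
      ring
    rw [ere, eim]
    have hd : |x₂ - x₁| ≤ ‖z - w‖ := by
      rw [hx₁, hx₂, ← Complex.sub_re, ← mul_sub, norm_sub_rev, ← hnorm]
      exact Complex.abs_re_le_norm _
    set x := x₁ + s * (x₂ - x₁) with hx
    have l1 : φ x ≤ φ x₁ + K * (s * |x₂ - x₁|) := by
      have := hφ.norm_sub_le x x₁
      rw [Real.norm_eq_abs, Real.norm_eq_abs] at this
      have e2 : x - x₁ = s * (x₂ - x₁) := by rw [hx]; ring
      rw [e2, abs_mul, abs_of_nonneg hs0] at this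
      linarith [(abs_le.1 this).2]
    have l2 : φ x ≤ φ x₂ + K * ((1 - s) * |x₂ - x₁|) := by
      have := hφ.norm_sub_le x x₂
      rw [Real.norm_eq_abs, Real.norm_eq_abs] at this
      have e2 : x - x₂ = -((1 - s) * (x₂ - x₁)) := by rw [hx]; ring
      rw [e2, abs_neg, abs_mul, abs_of_nonneg (by linarith : (0:ℝ) ≤ 1 - s)] at this
      linarith [(abs_le.1 this).2]
    have l3 : φ x = (1 - s) * φ x + s * φ x := by ring
    have l4 : (1 - s) * φ x ≤ (1 - s) * (φ x₁ + K * (s * |x₂ - x₁|)) := by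
      apply mul_le_mul_of_nonneg_left l1; linarith
    have l5 : s * φ x ≤ s * (φ x₂ + K * ((1 - s) * |x₂ - x₁|)) :=
      mul_le_mul_of_nonneg_left l2 hs0
    have l6 : (K : ℝ) * |x₂ - x₁| ≤ t := by rw [ht]; gcongr
    have l7 : 2 * (s * (1 - s)) ≤ 1 := by nlinarith [sq_nonneg (2 * s - 1)]
    have l8 : 2 * (s * (1 - s)) * ((K : ℝ) * |x₂ - x₁|) ≤ 1 * ((K : ℝ) * |x₂ - x₁|) :=
      mul_le_mul_of_nonneg_right l7 (by positivity)
    have l9 : (1 - s) * φ x₁ + s * φ x₂ < (1 - s) * y₁ + s * y₂ := by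
      rcases eq_or_lt_of_le hs0 with h0 | h0
      · rw [← h0]; simp only [sub_zero, one_mul, zero_mul, add_zero]; exact hz1
      · have i1 : s * φ x₂ < s * y₂ := mul_lt_mul_of_pos_left hw1 h0
        have i2 : (1 - s) * φ x₁ ≤ (1 - s) * y₁ := mul_le_mul_of_nonneg_left hz1.le (by linarith)
        linarith
    nlinarith
  · rw [segment_symm]; exact hvert w (Or.inr rfl)
  · rw [add_sub_cancel_left, hτn]
  · rw [add_sub_add_right_eq_sub, norm_sub_rev]
  · rw [sub_add_cancel_left, norm_neg, hτn]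

theorem local_lip {G : Set ℂ} (hG : IsBoundedLipschitzDomain G) {f : ℂ → ℂ}
    (hf : DifferentiableOn ℂ f G) {B : ℝ} (hB : ∀ z ∈ G, ‖deriv f z‖ ≤ B) :
    ∀ ζ ∈ closure G, ∃ ρ : ℝ, 0 < ρ ∧ ∃ L : ℝ≥0, LipschitzOnWith L f (G ∩ ball ζ ρ) := by
  have hB0 : 0 ≤ B := by
    obtain ⟨z, hz⟩ := hG.isConnected.nonempty
    exact (norm_nonneg _).trans (hB z hz)
  intro ζ hζ
  by_cases hζG : ζ ∈ G
  · obtain ⟨ρ, hρ, hsub⟩ := Metric.isOpen_iff.1 hG.isOpen ζ hζG
    refine ⟨ρ, hρ, B.toNNReal, ?_⟩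
    apply LipschitzOnWith.of_dist_le_mul
    rintro z ⟨_, hz⟩ w ⟨_, hw⟩
    rw [dist_eq_norm, dist_eq_norm, Real.coe_toNNReal _ hB0]
    exact seg_bound hG.isOpen hf hB (((convex_ball ζ ρ).segment_subset hw hz).trans hsub)
  · have hζf : ζ ∈ frontier G := by
      rw [frontier, hG.isOpen.interior_eq]; exact ⟨hζ, hζG⟩
    obtain ⟨r, hr, u, hu, K, φ, hφ, hchart⟩ := hG.chart ζ hζf
    obtain ⟨ρ, hρ, hpath⟩ := chart_paths hu hφ hr hchart
    refine ⟨ρ, hρ, (B * (2 * K + 1)).toNNReal, ?_⟩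
    apply LipschitzOnWith.of_dist_le_mul
    intro z hz w hw
    obtain ⟨p, q, s1, s2, s3, n1, n2, n3⟩ := hpath z hz w hw
    rw [dist_comm, dist_eq_norm, dist_eq_norm, Real.coe_toNNReal _ (by positivity)]
    have b1 := seg_bound hG.isOpen hf hB s1
    have b2 := seg_bound hG.isOpen hf hB s2
    have b3 := seg_bound hG.isOpen hf hB s3
    have e : f w - f z = (f w - f q) + (f q - f p) + (f p - f z) := by ring
    rw [e]
    have t1 := norm_add_le ((f w - f q) + (f q - f p)) (f p - f z)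
    have t2 := norm_add_le (f w - f q) (f q - f p)
    have c1 := mul_le_mul_of_nonneg_left n1 hB0
    have c2 := mul_le_mul_of_nonneg_left n2 hB0
    have c3 := mul_le_mul_of_nonneg_left n3 hB0
    calc _ ≤ B * (K * ‖z - w‖) + B * ‖z - w‖ + B * (K * ‖z - w‖) := by linarith
      _ = B * (2 * K + 1) * ‖z - w‖ := by ring

theorem bounded_of_local {G : Set ℂ} (hc : IsCompact (closure G)) {f : ℂ → ℂ}
    (h : ∀ ζ ∈ closure G, ∃ U ∈ 𝓝 ζ, ∃ M : ℝ, ∀ z ∈ G ∩ U, ‖f z‖ ≤ M) :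
    ∃ M : ℝ, ∀ z ∈ G, ‖f z‖ ≤ M := by
  have : ∃ M : ℝ, ∀ z ∈ G ∩ closure G, ‖f z‖ ≤ M := by
    apply hc.induction_on (p := fun s => ∃ M : ℝ, ∀ z ∈ G ∩ s, ‖f z‖ ≤ M)
    · exact ⟨0, fun z hz => absurd hz.2 (notMem_empty z)⟩
    · rintro s t hst ⟨M, hM⟩
      exact ⟨M, fun z hz => hM z ⟨hz.1, hst hz.2⟩⟩
    · rintro s t ⟨M, hM⟩ ⟨N, hN⟩
      refine ⟨max M N, fun z hz => ?_⟩
      rcases hz.2 with h1 | h1
      · exact (hM z ⟨hz.1, h1⟩).trans (le_max_left _ _)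
      · exact (hN z ⟨hz.1, h1⟩).trans (le_max_right _ _)
    · intro ζ hζ
      obtain ⟨U, hU, M, hM⟩ := h ζ hζ
      exact ⟨U, mem_nhdsWithin_of_mem_nhds hU, M, hM⟩
  obtain ⟨M, hM⟩ := this
  exact ⟨M, fun z hz => hM z ⟨hz, subset_closure hz⟩⟩

theorem bounded_of_uc {G : Set ℂ} (hb : Bornology.IsBounded G) {f : ℂ → ℂ}
    (h : UniformContinuousOn f G) : ∃ M : ℝ, ∀ z ∈ G, ‖f z‖ ≤ M := by
  apply bounded_of_local hb.isCompact_closure
  intro ζ hζ
  rw [Metric.uniformContinuousOn_iff] at h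
  obtain ⟨δ, hδ, hd⟩ := h 1 one_pos
  refine ⟨ball ζ (δ / 2), ball_mem_nhds _ (by positivity), ?_⟩
  obtain ⟨w, hw, hwG⟩ := mem_closure_iff_nhds.1 hζ (ball ζ (δ / 2)) (ball_mem_nhds _ (by positivity))
  refine ⟨1 + ‖f w‖, ?_⟩
  rintro z ⟨hzG, hz⟩
  have h1 : dist z w < δ := by
    rw [mem_ball] at hz hw
    calc dist z w ≤ dist z ζ + dist w ζ := dist_triangle_right _ _ _
      _ < δ / 2 + δ / 2 := add_lt_add hz hw
      _ = δ := by ring
  have h2 := hd z hzG w hwG h1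
  rw [dist_eq_norm] at h2
  have h3 := norm_le_norm_add_norm_sub' (f z) (f w)
  linarith

theorem bounded_of_deriv {G : Set ℂ} (hG : IsBoundedLipschitzDomain G) {f : ℂ → ℂ}
    (hf : DifferentiableOn ℂ f G) (hB : ∃ B : ℝ, ∀ z ∈ G, ‖deriv f z‖ ≤ B) :
    ∃ M : ℝ, ∀ z ∈ G, ‖f z‖ ≤ M := by
  obtain ⟨B, hB⟩ := hB
  apply bounded_of_local hG.isBounded.isCompact_closure
  intro ζ hζ
  obtain ⟨ρ, hρ, L, hL⟩ := local_lip hG hf hB ζ hζ
  refine ⟨ball ζ ρ, ball_mem_nhds _ hρ, ?_⟩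
  obtain ⟨w, hw, hwG⟩ := mem_closure_iff_nhds.1 hζ (ball ζ ρ) (ball_mem_nhds _ hρ)
  refine ⟨L * (ρ + ρ) + ‖f w‖, ?_⟩
  rintro z ⟨hzG, hz⟩
  have h1 : dist z w ≤ ρ + ρ := by
    rw [mem_ball] at hz hw
    calc dist z w ≤ dist z ζ + dist w ζ := dist_triangle_right _ _ _
      _ ≤ ρ + ρ := (add_lt_add hz hw).le
  have h2 := hL.dist_le_mul z ⟨hzG, hz⟩ w ⟨hwG, hw⟩
  rw [dist_eq_norm] at h2
  have h3 := norm_le_norm_add_norm_sub' (f z) (f w)
  have h4 : (L : ℝ) * dist z w ≤ L * (ρ + ρ) := by gcongr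
  linarith

theorem lip_closure {G : Set ℂ} (hG : IsBoundedLipschitzDomain G) {f : ℂ → ℂ}
    (hf : DifferentiableOn ℂ f G) (hc : ContinuousOn f (closure G))
    (hB : ∃ B : ℝ, ∀ z ∈ G, ‖deriv f z‖ ≤ B) :
    ∃ L : ℝ≥0, LipschitzOnWith L f (closure G) := by
  obtain ⟨B, hB⟩ := hB
  apply LocallyLipschitzOn.exists_lipschitzOnWith_of_compact hG.isBounded.isCompact_closure
  intro ζ hζ
  obtain ⟨ρ, hρ, L, hL⟩ := local_lip hG hf hB ζ hζ
  refine ⟨L, closure G ∩ ball ζ ρ, ?_, ?_⟩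
  · exact inter_mem_nhdsWithin _ (ball_mem_nhds _ hρ)
  · have h1 : LipschitzOnWith L f (closure (G ∩ ball ζ ρ)) := by
      apply LipschitzOnWith.closure _ hL
      exact hc.mono (closure_mono inter_subset_left)
    exact h1.mono isOpen_ball.closure_inter

theorem iteratedDeriv_diffOn {G : Set ℂ} (hG : IsOpen G) {f : ℂ → ℂ}
    (hf : DifferentiableOn ℂ f G) (n : ℕ) : DifferentiableOn ℂ (iteratedDeriv n f) G := by
  induction n with
  | zero => rw [iteratedDeriv_zero]; exact hf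
  | succ n ih =>
    rw [iteratedDeriv_succ]
    exact ih.deriv hG

theorem deriv_bounded {G : Set ℂ} (hG : IsBoundedLipschitzDomain G) {f : ℂ → ℂ}
    (hf : DifferentiableOn ℂ f G) {γ : ℕ} (hγ : 1 ≤ γ)
    (h : UniformContinuousOn (iteratedDeriv γ f) G) : ∃ B : ℝ, ∀ z ∈ G, ‖deriv f z‖ ≤ B := by
  have key : ∀ k : ℕ, k + 1 ≤ γ → ∃ M : ℝ, ∀ z ∈ G, ‖iteratedDeriv (γ - k) f z‖ ≤ M := by
    intro k
    induction k with
    | zero => intro _; exact bounded_of_uc hG.isBounded h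
    | succ k ih =>
      intro hk
      obtain ⟨M, hM⟩ := ih (by omega)
      apply bounded_of_deriv hG (iteratedDeriv_diffOn hG.isOpen hf _)
      refine ⟨M, fun z hz => ?_⟩
      rw [← iteratedDeriv_succ]
      have : γ - (k + 1) + 1 = γ - k := by omega
      rw [this]
      exact hM z hz
  obtain ⟨M, hM⟩ := key (γ - 1) (by omega)
  refine ⟨M, fun z hz => ?_⟩
  have := hM z hz
  rw [show γ - (γ - 1) = 1 by omega, iteratedDeriv_one] at this
  exact this

end Pool.Agent.Helper19.ZS
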