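import Mathlib
import Pool.Agent.Helper19.ZS.Local
import Pool.Agent.Helper19.ZS.Reg

/-!
Transfer of zero sets between the classes `C^γ(G)` on a bounded Lipschitz domain.
-/

open MeasureTheory Filter Topology Metric Set
open scoped NNReal ENNReal Pointwise

namespace Pool.Agent.Helper19.ZS

/-- `f` (together with its continuous extension to `closure G`, denoted by the same letter) belongs
to `C^γ(G)`: `f` is holomorphic in `G` and its `γ`-th derivative is uniformly continuous on `G`. -/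
structure InClass (G : Set ℂ) (γ : ℕ) (f : ℂ → ℂ) : Prop where
  holo : DifferentiableOn ℂ f G
  uc : UniformContinuousOn (iteratedDeriv γ f) G
  cont : ContinuousOn f (closure G)

theorem dbar_holo {g : ℂ → ℂ} {w : ℂ} (h : DifferentiableAt ℂ g w) : dbar g w = 0 := by
  have key : ∀ v : ℂ, lineDeriv ℝ g w v = deriv g w * v := by
    intro v
    have h1 : HasFDerivAt g ((fderiv ℂ g w).restrictScalars ℝ) w :=
      h.hasFDerivAt.restrictScalars ℝ
    rw [(h1.hasLineDerivAt v).lineDeriv]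
    simp [mul_comm]
  unfold dbar
  rw [key, key]
  ring_nf
  rw [Complex.I_sq]
  ring

theorem dbar_holo_of_eq {g f : ℂ → ℂ} {w : ℂ} (h : DifferentiableAt ℂ f w) (hgf : g =ᶠ[𝓝 w] f) :
    dbar g w = 0 :=
  dbar_holo (h.congr_of_eventuallyEq hgf)

/-- The construction, for a function with small Lipschitz constant. -/
theorem construct {G : Set ℂ} (hG : IsBoundedLipschitzDomain G) {g : ℂ → ℂ} {ε : ℝ≥0}
    (hg : LipschitzWith ε g) (hgG : DifferentiableOn ℂ g G) {A β₀ : ℝ} (hA : 0 < A)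
    (hε1 : (ε : ℝ) ≤ 1 / 2) (hβ₀ : 0 < β₀) (hβ1 : β₀ ≤ 1 / 2)
    (hβ : ∀ z ∈ closure G, ‖g z‖ ≤ β₀)
    (hint : ∀ z, 0 < ‖g z‖ → ‖g z‖ ≤ 1 →
      ∫⁻ w in collar G g, ENNReal.ofReal (‖g w‖⁻¹ * ‖z - w‖⁻¹) ≤
          ENNReal.ofReal (A * (1 + Real.log (‖g z‖⁻¹))))
    (hεA : (ε : ℝ) * A * kappa⁻¹ ≤ 1 / 2) (hne : ∃ z ∈ G, g z ≠ 0) {γ : ℕ} (hγ : 1 ≤ γ) :
    ∃ H : ℂ → ℂ, InClass G γ H ∧ (∃ z ∈ G, H z ≠ 0) ∧ ∀ z ∈ closure G, (H z = 0 ↔ g z = 0) := by
  classical
  have hκ := kappa_pos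
  have hgc := hg.continuous
  have hcomp : IsCompact (closure G) := hG.isBounded.isCompact_closure
  have hGne : G.Nonempty := hG.isConnected.nonempty
  set G' : Set ℂ := {z | infDist z (closure G) < ‖g z‖} with hG'
  have hG'o : IsOpen G' := isOpen_lt (continuous_infDist_pt _) hgc.norm
  have hG'pos : ∀ z ∈ G', 0 < ‖g z‖ := fun z hz => lt_of_le_of_lt infDist_nonneg hz
  have hG'ex : ∀ z ∈ G', ∃ w₀ ∈ closure G, dist z w₀ < ‖g z‖ := fun z hz =>
    (infDist_lt_iff hGne.closure).1 hz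
  have hG'le : ∀ z ∈ G', ‖g z‖ ≤ 1 := by
    intro z hz
    obtain ⟨w₀, hw₀, hd⟩ := hG'ex z hz
    have h1 := hg.norm_sub_le z w₀
    have h2 := norm_le_norm_add_norm_sub' (g z) (g w₀)
    rw [← dist_eq_norm z w₀] at h1
    have h3 : (ε : ℝ) * dist z w₀ ≤ 1 / 2 * ‖g z‖ :=
      mul_le_mul hε1 hd.le dist_nonneg (by norm_num)
    have h4 := hβ w₀ hw₀
    linarith
  have hclG' : ∀ z ∈ closure G, g z ≠ 0 → z ∈ G' := by
    intro z hz h0
    show infDist z (closure G) < ‖g z‖
    rw [infDist_zero_of_mem hz]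
    exact norm_pos_iff.2 h0
  have hcol_sub : collar G g ⊆ G' := fun w hw => hw.2
  have hcm : MeasurableSet (collar G g) := measurableSet_collar hG.isOpen hgc
  -- the density
  let μ : ℂ → ℂ := (collar G g).indicator (fun w => dbar g w / g w)
  have hμm : Measurable μ := by
    apply Measurable.indicator _ hcm
    exact (measurable_dbar hgc).div hgc.measurable
  have hμle : ∀ w, ‖μ w‖ ≤ (collar G g).indicator (fun w => (ε : ℝ) * ‖g w‖⁻¹) w := by
    intro w
    by_cases hw : w ∈ collar G g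
    · simp only [μ]
      rw [indicator_of_mem hw, indicator_of_mem hw, norm_div, div_eq_mul_inv]
      exact mul_le_mul_of_nonneg_right (norm_dbar_le hg w) (by positivity)
    · simp only [μ]
      rw [indicator_of_notMem hw, indicator_of_notMem hw, norm_zero]
  have hμker : ∀ z ∈ G', ∫⁻ w, ENNReal.ofReal ‖μ w * (z - w)⁻¹‖ ≤
      ENNReal.ofReal (ε * A * (1 + Real.log (‖g z‖⁻¹))) := by
    intro z hz
    calc ∫⁻ w, ENNReal.ofReal ‖μ w * (z - w)⁻¹‖
        ≤ ∫⁻ w, (collar G g).indicator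
            (fun w => ENNReal.ofReal ε * ENNReal.ofReal (‖g w‖⁻¹ * ‖z - w‖⁻¹)) w := by
          apply lintegral_mono
          intro w
          by_cases hw : w ∈ collar G g
          · simp only
            rw [indicator_of_mem hw, ← ENNReal.ofReal_mul (NNReal.coe_nonneg ε)]
            apply ENNReal.ofReal_le_ofReal
            have := hμle w
            rw [indicator_of_mem hw] at this
            rw [norm_mul, norm_inv, ← mul_assoc]
            exact mul_le_mul_of_nonneg_right this (by positivity)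
          · simp only [μ]
            rw [indicator_of_notMem hw, indicator_of_notMem hw]; simp
      _ = ENNReal.ofReal ε * ∫⁻ w in collar G g, ENNReal.ofReal (‖g w‖⁻¹ * ‖z - w‖⁻¹) := by
          rw [lintegral_indicator hcm, lintegral_const_mul' _ _ ENNReal.ofReal_ne_top]
      _ ≤ ENNReal.ofReal ε * ENNReal.ofReal (A * (1 + Real.log (‖g z‖⁻¹))) := by
          gcongr
          exact hint z (hG'pos z hz) (hG'le z hz)
      _ = ENNReal.ofReal (ε * A * (1 + Real.log (‖g z‖⁻¹))) := by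
          rw [← ENNReal.ofReal_mul (NNReal.coe_nonneg ε)]; congr 1; ring
  have hlog0 : ∀ z ∈ G', 0 ≤ Real.log (‖g z‖⁻¹) := fun z hz =>
    Real.log_nonneg (one_le_inv_iff₀.2 ⟨hG'pos z hz, hG'le z hz⟩)
  have hTle : ∀ z ∈ G', ‖cauchyT μ z‖ ≤ ε * A * (1 + Real.log (‖g z‖⁻¹)) := by
    intro z hz
    have h1 := norm_integral_le_lintegral_norm (fun w => μ w * (z - w)⁻¹) (μ := volume)
    refine h1.trans ?_
    apply ENNReal.toReal_le_of_le_ofReal
    · have := hlog0 z hz
      positivity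
    · exact hμker z hz
  -- integrability of μ
  have hμint : Integrable μ := by
    obtain ⟨z₀, hz₀, hgz₀⟩ := hne
    have hz₀' := hclG' z₀ (subset_closure hz₀) hgz₀
    obtain ⟨R, hR⟩ := hcomp.isBounded.exists_norm_le
    have hR0 : 0 ≤ R := (norm_nonneg z₀).trans (hR z₀ (subset_closure hz₀))
    have hdist : ∀ w ∈ collar G g, ‖z₀ - w‖ ≤ 2 * R + 1 := by
      intro w hw
      obtain ⟨w₀, hw₀, hd⟩ := hG'ex w (hcol_sub hw)
      have h1 := hG'le w (hcol_sub hw)
      have h2 := hR w₀ hw₀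
      have h3 := hR z₀ (subset_closure hz₀)
      have h4 : ‖z₀ - w‖ ≤ ‖z₀‖ + ‖w₀‖ + dist w w₀ := by
        have e : z₀ - w = z₀ - w₀ - (w - w₀) := by ring
        rw [e, dist_eq_norm]
        refine (norm_sub_le _ _).trans ?_
        have := norm_sub_le z₀ w₀
        linarith
      linarith
    refine ⟨hμm.aestronglyMeasurable, ?_⟩
    rw [hasFiniteIntegral_iff_norm]
    have hle : ∀ w, ENNReal.ofReal ‖μ w‖ ≤ ENNReal.ofReal (2 * R + 1) *
        ENNReal.ofReal ‖μ w * (z₀ - w)⁻¹‖ := by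
      intro w
      by_cases hw : w ∈ collar G g
      · rw [← ENNReal.ofReal_mul (by positivity)]
        apply ENNReal.ofReal_le_ofReal
        have hwz : z₀ - w ≠ 0 := by
          intro h0
          rw [sub_eq_zero] at h0
          exact hw.1 (h0 ▸ hz₀)
        have hpos : 0 < ‖z₀ - w‖ := norm_pos_iff.2 hwz
        rw [norm_mul, norm_inv]
        have h5 := hdist w hw
        calc ‖μ w‖ = ‖z₀ - w‖ * (‖μ w‖ * ‖z₀ - w‖⁻¹) := by field_simp
          _ ≤ (2 * R + 1) * (‖μ w‖ * ‖z₀ - w‖⁻¹) := by gcongr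
      · simp only [μ]
        rw [indicator_of_notMem hw]; simp
    calc ∫⁻ w, ENNReal.ofReal ‖μ w‖
        ≤ ∫⁻ w, ENNReal.ofReal (2 * R + 1) * ENNReal.ofReal ‖μ w * (z₀ - w)⁻¹‖ :=
          lintegral_mono hle
      _ = ENNReal.ofReal (2 * R + 1) * ∫⁻ w, ENNReal.ofReal ‖μ w * (z₀ - w)⁻¹‖ := by
          rw [lintegral_const_mul' _ _ ENNReal.ofReal_ne_top]
      _ ≤ ENNReal.ofReal (2 * R + 1) * ENNReal.ofReal (ε * A * (1 + Real.log (‖g z₀‖⁻¹))) := by
          gcongr
          exact hμker z₀ hz₀'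
      _ < ⊤ := ENNReal.mul_lt_top ENNReal.ofReal_lt_top ENNReal.ofReal_lt_top
  -- the corrected function
  let F : ℂ → ℂ := fun z => g z * Complex.exp (-((kappa : ℂ)⁻¹ * cauchyT μ z))
  have hFd : ∀ z ∈ G', DifferentiableAt ℂ F z := by
    intro z hz
    obtain ⟨R, hR, hsub⟩ := Metric.isOpen_iff.1 hG'o z hz
    apply corrected_differentiableAt hg hμint (norm_pos_iff.1 (hG'pos z hz)) hR
    apply Eventually.of_forall
    intro w hw
    by_cases hwG : w ∈ G
    · have h1 : w ∉ collar G g := fun h => h.1 hwG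
      simp only [μ]
      rw [indicator_of_notMem h1, dbar_holo (hgG.differentiableAt (hG.isOpen.mem_nhds hwG)), zero_div]
    · have h1 : w ∈ collar G g := ⟨hwG, hsub hw⟩
      simp only [μ]
      rw [indicator_of_mem h1]
  have hFbound : ∀ z ∈ G', ‖F z‖ ^ 2 ≤ Real.exp 1 * ‖g z‖ := by
    intro z hz
    have hpos := hG'pos z hz
    have h1 : ‖Complex.exp (-((kappa : ℂ)⁻¹ * cauchyT μ z))‖ ≤
        Real.exp (1 / 2 * (1 + Real.log (‖g z‖⁻¹))) := by
      rw [Complex.norm_exp]
      apply Real.exp_le_exp.2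
      refine (Complex.re_le_norm _).trans ?_
      rw [norm_neg, norm_mul, norm_inv, Complex.norm_real, Real.norm_of_nonneg hκ.le]
      have h2 := hTle z hz
      have h3 := hlog0 z hz
      calc kappa⁻¹ * ‖cauchyT μ z‖ ≤ kappa⁻¹ * (ε * A * (1 + Real.log (‖g z‖⁻¹))) := by gcongr
        _ = (ε * A * kappa⁻¹) * (1 + Real.log (‖g z‖⁻¹)) := by ring
        _ ≤ 1 / 2 * (1 + Real.log (‖g z‖⁻¹)) := by gcongr
    have h2 : Real.exp (1 / 2 * (1 + Real.log (‖g z‖⁻¹))) ^ 2 = Real.exp 1 * ‖g z‖⁻¹ := by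
      rw [← Real.exp_nat_mul]
      have : ((2 : ℕ) : ℝ) * (1 / 2 * (1 + Real.log (‖g z‖⁻¹))) = 1 + Real.log (‖g z‖⁻¹) := by
        push_cast; ring
      rw [this, Real.exp_add, Real.exp_log (by positivity)]
    simp only [F]
    rw [norm_mul, mul_pow]
    calc ‖g z‖ ^ 2 * ‖Complex.exp (-((kappa : ℂ)⁻¹ * cauchyT μ z))‖ ^ 2
        ≤ ‖g z‖ ^ 2 * Real.exp (1 / 2 * (1 + Real.log (‖g z‖⁻¹))) ^ 2 := by gcongr
      _ = ‖g z‖ ^ 2 * (Real.exp 1 * ‖g z‖⁻¹) := by rw [h2]
      _ = Real.exp 1 * ‖g z‖ := by field_simp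
  have hFne : ∀ z ∈ G', F z ≠ 0 := by
    intro z hz
    exact mul_ne_zero (norm_pos_iff.1 (hG'pos z hz)) (Complex.exp_ne_zero _)
  -- the final function
  set n : ℕ := γ + 1 with hn
  let H : ℂ → ℂ := fun z => if z ∈ G' then (F z) ^ (2 * n) else 0
  set c : ℝ := Real.exp 1 ^ n with hc
  have hc0 : 0 < c := by positivity
  have hHin : ∀ z ∈ G', H z = F z ^ (2 * n) := fun z hz => if_pos hz
  have hHout : ∀ z, z ∉ G' → H z = 0 := fun z hz => if_neg hz
  have hHle : ∀ z, ‖H z‖ ≤ c * ‖g z‖ ^ n := by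
    intro z
    by_cases hz : z ∈ G'
    · rw [hHin z hz, norm_pow, pow_mul, hc, ← mul_pow]
      exact pow_le_pow_left₀ (by positivity) (hFbound z hz) n
    · rw [hHout z hz, norm_zero]; positivity
  have hHd1 : ∀ z ∈ G', DifferentiableAt ℂ H z := by
    intro z hz
    have h1 : DifferentiableAt ℂ (fun z => F z ^ (2 * n)) z := (hFd z hz).pow _
    apply h1.congr_of_eventuallyEq
    filter_upwards [hG'o.mem_nhds hz] with w hw
    exact hHin w hw
  have hHd2 : ∀ z, g z = 0 → DifferentiableAt ℂ H z := by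
    intro z hz
    have hz' : z ∉ G' := fun h => by have := hG'pos z h; rw [hz, norm_zero] at this; exact lt_irrefl _ this
    have hder : HasDerivAt H 0 z := by
      rw [hasDerivAt_iff_isLittleO]
      simp only [smul_zero, sub_zero]
      rw [hHout z hz', ]
      have h1 : (fun w => H w - 0) =O[𝓝 z] fun w => ‖w - z‖ ^ n := by
        apply Asymptotics.IsBigO.of_bound c
        filter_upwards with w
        rw [sub_zero, norm_pow, norm_norm]
        refine (hHle w).trans ?_
        gcongr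
        have := hg.norm_sub_le w z
        rw [hz, sub_zero] at this
        have h3 : (ε : ℝ) * ‖w - z‖ ≤ 1 * ‖w - z‖ := by gcongr; linarith
        linarith
      refine h1.trans_isLittleO ?_
      have h2 : (fun w : ℂ => ‖w - z‖ ^ n) =o[𝓝 z] fun w => (w - z) := by
        have h4 : (fun x : ℂ => ‖x‖ ^ n) =o[𝓝 0] fun x => x :=
          Asymptotics.isLittleO_norm_pow_id (by omega)
        have h5 : Tendsto (fun w : ℂ => w - z) (𝓝 z) (𝓝 0) := by
          apply Continuous.tendsto'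
          · fun_prop
          · simp
        exact h4.comp_tendsto h5
      exact h2
    exact hder.differentiableAt
  have hHd : ∀ z ∈ closure G, DifferentiableAt ℂ H z := by
    intro z hz
    by_cases h0 : g z = 0
    · exact hHd2 z h0
    · exact hHd1 z (hclG' z hz h0)
  -- Cauchy estimate away from the zeros
  have hball : ∀ z ∈ closure G, g z ≠ 0 → ∀ w ∈ closedBall z (‖g z‖ / 4), w ∈ G' ∧ ‖g w‖ ≤ 2 * ‖g z‖ := by
    intro z hz h0 w hw
    have hpos : 0 < ‖g z‖ := norm_pos_iff.2 h0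
    rw [mem_closedBall, dist_eq_norm] at hw
    have h1 := hg.norm_sub_le w z
    have h2 : (ε : ℝ) * ‖w - z‖ ≤ 1 / 2 * (‖g z‖ / 4) := by gcongr
    have h3 := norm_le_norm_add_norm_sub' (g w) (g z)
    have h4 := norm_le_norm_add_norm_sub' (g z) (g w)
    rw [norm_sub_rev] at h4
    refine ⟨?_, by linarith⟩
    show infDist w (closure G) < ‖g w‖
    calc infDist w (closure G) ≤ dist w z := infDist_le_dist_of_mem hz
      _ ≤ ‖g z‖ / 4 := by rw [dist_eq_norm]; exact hw
      _ < ‖g w‖ := by linarith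
  set D : ℝ := γ.factorial * (c * 2 ^ n) * 4 ^ γ with hD
  have hD0 : 0 ≤ D := by positivity
  have hest : ∀ z ∈ closure G, g z ≠ 0 → ‖iteratedDeriv γ H z‖ ≤ D * ‖g z‖ := by
    intro z hz h0
    have hpos : 0 < ‖g z‖ := norm_pos_iff.2 h0
    have hR : 0 < ‖g z‖ / 4 := by positivity
    have hb := hball z hz h0
    have hdc : DiffContOnCl ℂ H (ball z (‖g z‖ / 4)) := by
      apply DifferentiableOn.diffContOnCl
      rw [closure_ball z hR.ne']
      intro w hw
      exact (hHd1 w (hb w hw).1).differentiableWithinAt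
    have hC : ∀ w ∈ sphere z (‖g z‖ / 4), ‖H w‖ ≤ c * (2 * ‖g z‖) ^ n := by
      intro w hw
      refine (hHle w).trans ?_
      gcongr
      exact (hb w (sphere_subset_closedBall hw)).2
    have h1 := Complex.norm_iteratedDeriv_le_of_forall_mem_sphere_norm_le γ hR hdc hC
    refine h1.trans (le_of_eq ?_)
    rw [hD, hn, div_pow, mul_pow]
    field_simp
    ring
  have hest0 : ∀ z ∈ G, g z = 0 → iteratedDeriv γ H z = 0 := by
    intro z hz h0
    obtain ⟨R, hR, hsub⟩ := Metric.isOpen_iff.1 hG.isOpen z hz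
    have hbd : ∀ r ∈ Ioo (0:ℝ) R, ‖iteratedDeriv γ H z‖ ≤ γ.factorial * c * r := by
      rintro r ⟨hr0, hrR⟩
      have hdc : DiffContOnCl ℂ H (ball z r) := by
        apply DifferentiableOn.diffContOnCl
        rw [closure_ball z hr0.ne']
        intro w hw
        exact (hHd w (subset_closure (hsub (closedBall_subset_ball hrR hw)))).differentiableWithinAt
      have hC : ∀ w ∈ sphere z r, ‖H w‖ ≤ c * r ^ n := by
        intro w hw
        refine (hHle w).trans ?_
        gcongr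
        have := hg.norm_sub_le w z
        rw [h0, sub_zero] at this
        rw [mem_sphere, dist_eq_norm] at hw
        rw [hw] at this
        have h3 : (ε : ℝ) * r ≤ 1 * r := by gcongr; linarith
        linarith
      have h1 := Complex.norm_iteratedDeriv_le_of_forall_mem_sphere_norm_le γ hr0 hdc hC
      refine h1.trans (le_of_eq ?_)
      rw [hn]
      field_simp
      rw [pow_succ]
    by_contra hcon
    have hpos : 0 < ‖iteratedDeriv γ H z‖ := norm_pos_iff.2 hcon
    have hlim : Tendsto (fun r : ℝ => γ.factorial * c * r) (𝓝[>] 0) (𝓝 0) := by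
      apply tendsto_nhdsWithin_of_tendsto_nhds
      apply Continuous.tendsto'
      · fun_prop
      · simp
    have hge : ‖iteratedDeriv γ H z‖ ≤ 0 := by
      apply ge_of_tendsto hlim
      filter_upwards [Ioo_mem_nhdsGT hR] with r hr
      exact hbd r hr
    linarith
  -- uniform continuity
  let Kf : ℂ → ℂ := fun z => if g z = 0 then 0 else iteratedDeriv γ H z
  have hKle : ∀ z ∈ closure G, ‖Kf z‖ ≤ D * ‖g z‖ := by
    intro z hz
    by_cases h0 : g z = 0
    · simp only [Kf, if_pos h0, norm_zero]; positivity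
    · simp only [Kf, if_neg h0]; exact hest z hz h0
  have hKcont : ContinuousOn Kf (closure G) := by
    intro z hz
    by_cases h0 : g z = 0
    · have hK0 : Kf z = 0 := by simp only [Kf, if_pos h0]
      unfold ContinuousWithinAt
      rw [hK0, tendsto_zero_iff_norm_tendsto_zero]
      have hlim : Tendsto (fun w => D * ‖g w‖) (𝓝[closure G] z) (𝓝 0) := by
        apply tendsto_nhdsWithin_of_tendsto_nhds
        apply Continuous.tendsto'
        · fun_prop
        · rw [h0]; simp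
      refine tendsto_of_tendsto_of_tendsto_of_le_of_le' tendsto_const_nhds hlim
        (Eventually.of_forall fun w => norm_nonneg _) ?_
      filter_upwards [self_mem_nhdsWithin] with w hw
      exact hKle w hw
    · apply ContinuousAt.continuousWithinAt
      have hzG' := hclG' z hz h0
      have h1 : DifferentiableOn ℂ (iteratedDeriv γ H) G' :=
        iteratedDeriv_diffOn hG'o (fun w hw => (hHd1 w hw).differentiableWithinAt) γ
      have h2 : ContinuousAt (iteratedDeriv γ H) z :=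
        (h1.differentiableAt (hG'o.mem_nhds hzG')).continuousAt
      apply h2.congr
      filter_upwards [hG'o.mem_nhds hzG'] with w hw
      have : g w ≠ 0 := norm_pos_iff.1 (hG'pos w hw)
      simp only [Kf, if_neg this]
  have hKuc : UniformContinuousOn Kf (closure G) := hcomp.uniformContinuousOn_of_continuous hKcont
  have hKeq : EqOn Kf (iteratedDeriv γ H) G := by
    intro z hz
    by_cases h0 : g z = 0
    · simp only [Kf, if_pos h0]; exact (hest0 z hz h0).symm
    · simp only [Kf, if_neg h0]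
  have hiff : ∀ z ∈ closure G, (H z = 0 ↔ g z = 0) := by
    intro z hz
    constructor
    · intro hH
      by_contra h0
      have hzG' := hclG' z hz h0
      rw [hHin z hzG'] at hH
      exact hFne z hzG' (pow_eq_zero_iff (by omega) |>.1 hH)
    · intro h0
      apply hHout
      intro h
      have := hG'pos z h
      rw [h0, norm_zero] at this
      exact lt_irrefl _ this
  refine ⟨H, ⟨?_, ?_, ?_⟩, ?_, hiff⟩
  · intro z hz
    exact (hHd z (subset_closure hz)).differentiableWithinAt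
  · exact (hKuc.mono subset_closure).congr hKeq
  · intro z hz
    exact (hHd z hz).continuousAt.continuousWithinAt
  · obtain ⟨z, hz, h0⟩ := hne
    exact ⟨z, hz, fun h => h0 ((hiff z (subset_closure hz)).1 h)⟩

theorem transfer {G : Set ℂ} (hG : IsBoundedLipschitzDomain G) {γ γ' : ℕ} (hγ : 1 ≤ γ)
    (hγ' : 1 ≤ γ') {f : ℂ → ℂ} (hf : InClass G γ f) (hne : ∃ z ∈ G, f z ≠ 0) :
    ∃ H : ℂ → ℂ, InClass G γ' H ∧ (∃ z ∈ G, H z ≠ 0) ∧ ∀ z ∈ closure G, (H z = 0 ↔ f z = 0) := by
  have hκ := kappa_pos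
  have hcomp : IsCompact (closure G) := hG.isBounded.isCompact_closure
  obtain ⟨L, hL⟩ := lip_closure hG hf.holo hf.cont (deriv_bounded hG hf.holo hγ hf.uc)
  obtain ⟨fe, hfe, hfeq⟩ := hL.extend_finite_dimension
  set Le : ℝ≥0 := lipschitzExtensionConstant ℂ * L with hLe
  obtain ⟨M, hM⟩ := hcomp.exists_bound_of_continuousOn hf.cont
  obtain ⟨A, hA, ε₀, hε₀, hε₀', β₀, hβ₀, hβ₀', hcol⟩ := collar_integral hG
  -- choose the scaling
  have hM0 : 0 ≤ M := by
    obtain ⟨z, hz, _⟩ := hne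
    exact (norm_nonneg _).trans (hM z (subset_closure hz))
  obtain ⟨s, hs0, hs1, hs2, hs3⟩ : ∃ s : ℝ≥0, 0 < s ∧ (s : ℝ) * Le ≤ ε₀ ∧ (s : ℝ) * M ≤ β₀ ∧
      (s : ℝ) * Le * A * kappa⁻¹ ≤ 1 / 2 := by
    have h1 : ∀ (a b : ℝ), 0 ≤ a → 0 < b → ∀ᶠ s : ℝ in 𝓝[>] 0, s * a ≤ b := by
      intro a b ha hb
      have hlim : Tendsto (fun s : ℝ => s * a) (𝓝[>] 0) (𝓝 0) := by
        apply tendsto_nhdsWithin_of_tendsto_nhds
        apply Continuous.tendsto'
        · fun_prop
        · simp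
      filter_upwards [hlim.eventually (gt_mem_nhds hb)] with s hs
      exact hs.le
    have e1 := h1 Le ε₀ Le.2 hε₀
    have e2 := h1 M β₀ hM0 hβ₀
    have e3 := h1 (Le * A * kappa⁻¹) (1 / 2) (by positivity) (by norm_num)
    obtain ⟨s, ⟨⟨⟨h1, h2⟩, h3⟩, h4⟩⟩ := (((e1.and e2).and e3).and self_mem_nhdsWithin).exists
    have h4 : 0 < s := h4
    refine ⟨⟨s, h4.le⟩, h4, h1, h2, ?_⟩
    show s * Le * A * kappa⁻¹ ≤ 1 / 2
    calc s * Le * A * kappa⁻¹ = s * (Le * A * kappa⁻¹) := by ring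
      _ ≤ 1 / 2 := h3
  let g : ℂ → ℂ := fun z => (s : ℂ) * fe z
  have hsne : (s : ℂ) ≠ 0 := by
    have : (s : ℝ) ≠ 0 := by exact_mod_cast hs0.ne'
    exact_mod_cast this
  have hsn : ‖(s : ℂ)‖ = s := by
    have h1 : ‖((s : ℝ) : ℂ)‖ = s := by
      rw [Complex.norm_real, Real.norm_of_nonneg (NNReal.coe_nonneg s)]
    exact h1
  have hg : LipschitzWith (s * Le) g := by
    apply LipschitzWith.of_dist_le_mul
    intro a b
    simp only [g]
    rw [dist_eq_norm, ← mul_sub, norm_mul, hsn]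
    have := hfe.norm_sub_le a b
    rw [dist_eq_norm]
    push_cast
    rw [mul_assoc]
    gcongr
  have hgf : ∀ z ∈ closure G, g z = s * f z := fun z hz => by
    simp only [g]; rw [← hfeq hz]
  have hgG : DifferentiableOn ℂ g G := by
    have h1 : DifferentiableOn ℂ (fun z => (s : ℂ) * f z) G := hf.holo.const_mul _
    exact h1.congr fun z hz => hgf z (subset_closure hz)
  have hβ : ∀ z ∈ closure G, ‖g z‖ ≤ β₀ := by
    intro z hz
    rw [hgf z hz, norm_mul, hsn]
    refine le_trans ?_ hs2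
    have := hM z hz
    gcongr
  have hgne : ∃ z ∈ G, g z ≠ 0 := by
    obtain ⟨z, hz, h0⟩ := hne
    exact ⟨z, hz, by rw [hgf z (subset_closure hz)]; exact mul_ne_zero hsne h0⟩
  have hε1 : ((s * Le : ℝ≥0) : ℝ) ≤ ε₀ := by push_cast; exact hs1
  obtain ⟨H, hH1, hH2, hH3⟩ := construct hG hg hgG hA (hε1.trans hε₀') hβ₀ hβ₀' hβ
    (hcol g (s * Le) hg hε1 hβ) (by push_cast; exact hs3) hgne hγ'
  refine ⟨H, hH1, hH2, fun z hz => ?_⟩
  rw [hH3 z hz, hgf z hz]
  constructor
  · intro h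
    exact (mul_eq_zero.1 h).resolve_left hsne
  · intro h; rw [h, mul_zero]

end Pool.Agent.Helper19.ZS
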