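import Mathlib
import Pool.Agent.Helper19.ZS.Main

/-!
The classes `C^γ(G)`, their zero sets, and the passage to the continuous extension.
-/

open Filter Topology Metric Set
open scoped NNReal

namespace Pool.Agent.Helper19.ZS

/-- The class `C^γ(G)`: functions holomorphic in `G` whose `γ`-th derivative is uniformly continuous
on `G` (only the values on `G` matter). -/
def CGamma (G : Set ℂ) (γ : ℕ) : Set (ℂ → ℂ) :=
  {f | DifferentiableOn ℂ f G ∧ UniformContinuousOn (iteratedDeriv γ f) G}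

/-- The points of `A` (a subset of `closure G`) at which the continuous extension of `f|_G` to
`closure G` vanishes. -/
def extZeros (G A : Set ℂ) (f : ℂ → ℂ) : Set ℂ := {z | z ∈ A ∧ Tendsto f (𝓝[G] z) (𝓝 0)}

/-- The family of the zero sets in `A` of the functions of `C^γ(G)` that do not vanish identically
on `G`. -/
def zeroSets (G A : Set ℂ) (γ : ℕ) : Set (Set ℂ) :=
  {E | ∃ f ∈ CGamma G γ, (∃ z ∈ G, f z ≠ 0) ∧ E = extZeros G A f}

/-- Every function of `C^γ(G)`, `γ ≥ 1`, extends continuously to `closure G`. -/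
theorem exists_extension {G : Set ℂ} (hG : IsBoundedLipschitzDomain G) {γ : ℕ} (hγ : 1 ≤ γ)
    {f : ℂ → ℂ} (hf : f ∈ CGamma G γ) :
    ∃ F : ℂ → ℂ, InClass G γ F ∧ EqOn F f G ∧
      ∀ z ∈ closure G, (Tendsto f (𝓝[G] z) (𝓝 0) ↔ F z = 0) := by
  obtain ⟨B, hB⟩ := deriv_bounded hG hf.1 hγ hf.2
  have hlim : ∀ z ∈ closure G, ∃ y, Tendsto f (𝓝[G] z) (𝓝 y) := by
    intro z hz
    obtain ⟨ρ, hρ, L, hL⟩ := local_lip hG hf.1 hB z hz
    obtain ⟨g, hg, hgf⟩ := hL.extend_finite_dimension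
    refine ⟨g z, ?_⟩
    have h1 : Tendsto g (𝓝[G] z) (𝓝 (g z)) :=
      (hg.continuous.continuousAt (x := z)).tendsto.mono_left nhdsWithin_le_nhds
    refine h1.congr' ?_
    filter_upwards [inter_mem_nhdsWithin G (ball_mem_nhds z hρ)] with w hw
    exact (hgf hw).symm
  set F : ℂ → ℂ := extendFrom G f with hF
  have hcont : ContinuousOn F (closure G) := continuousOn_extendFrom subset_rfl hlim
  have heq : EqOn F f G := by
    intro z hz
    exact extendFrom_eq (subset_closure hz) ((hf.1.continuousOn z hz).tendsto)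
  refine ⟨F, ⟨?_, ?_, hcont⟩, heq, ?_⟩
  · exact hf.1.congr heq
  · apply hf.2.congr
    intro z hz
    have : F =ᶠ[𝓝 z] f := by
      filter_upwards [hG.isOpen.mem_nhds hz] with w hw
      exact heq hw
    exact (this.iteratedDeriv_eq γ).symm
  · intro z hz
    have hne : (𝓝[G] z).NeBot := mem_closure_iff_nhdsWithin_neBot.1 hz
    obtain ⟨y, hy⟩ := hlim z hz
    have hFz : F z = y := extendFrom_eq hz hy
    rw [hFz]
    constructor
    · intro h
      exact tendsto_nhds_unique hy h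
    · rintro rfl
      exact hy

theorem zeroSets_subset {G : Set ℂ} (hG : IsBoundedLipschitzDomain G) {A : Set ℂ}
    (hA : A ⊆ closure G) {γ γ' : ℕ} (hγ : 1 ≤ γ) (hγ' : 1 ≤ γ') :
    zeroSets G A γ ⊆ zeroSets G A γ' := by
  rintro E ⟨f, hf, ⟨z₀, hz₀, hne⟩, rfl⟩
  obtain ⟨F, hF, hFf, hFz⟩ := exists_extension hG hγ hf
  obtain ⟨H, hH, hHne, hHF⟩ := transfer hG hγ hγ' hF ⟨z₀, hz₀, by rw [hFf hz₀]; exact hne⟩
  refine ⟨H, ⟨hH.holo, hH.uc⟩, hHne, ?_⟩
  ext z
  simp only [extZeros, mem_setOf_eq]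
  apply and_congr_right
  intro hz
  have hz' := hA hz
  rw [hFz z hz', ← hHF z hz']
  have hne : (𝓝[G] z).NeBot := mem_closure_iff_nhdsWithin_neBot.1 hz'
  have ht : Tendsto H (𝓝[G] z) (𝓝 (H z)) :=
    (hH.cont z hz').tendsto.mono_left (nhdsWithin_mono z subset_closure)
  constructor
  · intro h; rw [h] at ht; exact ht
  · intro h; exact tendsto_nhds_unique ht h

end Pool.Agent.Helper19.ZS
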